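import Mathlib

/-!
# Weak `ℳ`-structures and the bipartite affine diagrams

* `BipAffine`: the diagrams `Ã_{2k+1}` (`k ≥ 0`; for `k = 0` two vertices and a double edge),
  `D̃_{n+4}` (`n ≥ 0`), `Ẽ₆`, `Ẽ₇`, `Ẽ₈`, with their minimal positive imaginary roots `J`;
* `WeakMStructure`: weak `ℳ`-structures;
* `Corresponds`: the weak structure corresponds to `(Γ, m)`.
-/

set_option autoImplicit false

open MulOpposite

namespace Pool.Agent.KS6_42.MS

/-- A finite graph, given by the number `adj x y` of edges joining `x` and `y`, together with a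
vector `J` of natural numbers indexed by the vertices. -/
structure Diagram where
  /-- the vertices -/
  Vert : Type
  /-- there are finitely many vertices -/
  fintype : Fintype Vert
  /-- the number of edges joining two vertices -/
  adj : Vert → Vert → ℕ
  /-- a dimension vector -/
  J : Vert → ℕ

/-- The number of edges joining `x` and `y`, for the graph with the list of edges `E`. -/
def edges {V : Type} [DecidableEq V] (E : List (V × V)) (x y : V) : ℕ :=
  E.count (x, y) + E.count (y, x)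

/-- The cycle with the vertices `0, …, 2k+1`: the vertices `x` and `x + 1` are joined by an edge
(`x + 1 = 0` for `x = 2k+1`), so that for `k = 0` there are two vertices and a double edge. -/
def adjA (k : ℕ) (x y : Fin (2 * k + 2)) : ℕ :=
  (if y = x + 1 then 1 else 0) + (if x = y + 1 then 1 else 0)

/-- The vertices of `D̃_{n+4}`: a chain of `n + 1` vertices, and four leaves. -/
abbrev VertD (n : ℕ) : Type := Fin (n + 1) ⊕ Fin 4

/-- The vertex of the chain to which a leaf is attached: the leaves `0, 1` are attached to the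
first, the leaves `2, 3` to the last vertex of the chain. -/
def attD (n : ℕ) (l : Fin 4) : Fin (n + 1) := if l = 0 ∨ l = 1 then 0 else Fin.last n

/-- The edges of `D̃_{n+4}`. -/
def adjD (n : ℕ) : VertD n → VertD n → ℕ
  | Sum.inl i, Sum.inl j => if i.val + 1 = j.val ∨ j.val + 1 = i.val then 1 else 0
  | Sum.inl i, Sum.inr l => if i = attD n l then 1 else 0
  | Sum.inr l, Sum.inl i => if i = attD n l then 1 else 0
  | Sum.inr _, Sum.inr _ => 0

/-- The root `J` of `D̃_{n+4}`. -/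
def JD (n : ℕ) : VertD n → ℕ
  | Sum.inl _ => 2
  | Sum.inr _ => 1

/-- The edges of `Ẽ₆`: the arms `0-1-2`, `0-3-4`, `0-5-6`. -/
def adjE6 : Fin 7 → Fin 7 → ℕ := edges [(0, 1), (1, 2), (0, 3), (3, 4), (0, 5), (5, 6)]

/-- The root `J` of `Ẽ₆`. -/
def JE6 : Fin 7 → ℕ := ![3, 2, 1, 2, 1, 2, 1]

/-- The edges of `Ẽ₇`: the arms `0-1`, `0-2-3-4`, `0-5-6-7`. -/
def adjE7 : Fin 8 → Fin 8 → ℕ := edges [(0, 1), (0, 2), (2, 3), (3, 4), (0, 5), (5, 6), (6, 7)]

/-- The root `J` of `Ẽ₇`. -/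
def JE7 : Fin 8 → ℕ := ![4, 2, 3, 2, 1, 3, 2, 1]

/-- The edges of `Ẽ₈`: the arms `0-1`, `0-2-3`, `0-4-5-6-7-8`. -/
def adjE8 : Fin 9 → Fin 9 → ℕ :=
  edges [(0, 1), (0, 2), (2, 3), (0, 4), (4, 5), (5, 6), (6, 7), (7, 8)]

/-- The root `J` of `Ẽ₈`. -/
def JE8 : Fin 9 → ℕ := ![6, 3, 4, 2, 5, 4, 3, 2, 1]

/-- The bipartite simply-laced affine Dynkin diagrams. -/
inductive BipAffine : Type
  /-- `Ã_{2k+1}`, the cycle of length `2k+2` -/
  | A (k : ℕ)
  /-- `D̃_{n+4}` -/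
  | D (n : ℕ)
  /-- `Ẽ₆` -/
  | E6
  /-- `Ẽ₇` -/
  | E7
  /-- `Ẽ₈` -/
  | E8

/-- The graph and its minimal positive imaginary root. -/
def BipAffine.diagram : BipAffine → Diagram
  | .A k => ⟨Fin (2 * k + 2), inferInstance, adjA k, fun _ => 1⟩
  | .D n => ⟨VertD n, inferInstance, adjD n, JD n⟩
  | .E6 => ⟨Fin 7, inferInstance, adjE6, JE6⟩
  | .E7 => ⟨Fin 8, inferInstance, adjE7, JE7⟩
  | .E8 => ⟨Fin 9, inferInstance, adjE8, JE8⟩

section structures

variable (𝒜 ℬ L : Type*) [Ring 𝒜] [Algebra ℂ 𝒜] [Ring ℬ] [Algebra ℂ ℬ] [AddCommGroup L]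
  [Module ℂ L]

/-- Commuting actions of `ℬ` from the left and of `𝒜` from the right on `L`. -/
structure Actions where
  /-- the left action of `ℬ` on `L` -/
  lact : ℬ →ₐ[ℂ] Module.End ℂ L
  /-- the right action of `𝒜` on `L` -/
  ract : 𝒜ᵐᵒᵖ →ₐ[ℂ] Module.End ℂ L
  /-- the actions commute -/
  comm : ∀ (b : ℬ) (a : 𝒜) (v : L), lact b (ract (op a) v) = ract (op a) (lact b v)

/-- The subspaces `𝒜, ℬ ⊆ L`, given as algebras with injective linear maps `iA, iB` to `L`. -/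
structure Subspaces where
  /-- the embedding of `𝒜` -/
  iA : 𝒜 →ₗ[ℂ] L
  /-- the embedding of `ℬ` -/
  iB : ℬ →ₗ[ℂ] L
  iA_injective : Function.Injective iA
  iB_injective : Function.Injective iB
  /-- both algebras have the unit `1 ∈ L` -/
  one_eq : iA 1 = iB 1
  /-- `𝒜 ∩ ℬ = ℂ 1` -/
  inter : ∀ (a : 𝒜) (b : ℬ), iA a = iB b → ∃ c : ℂ, iA a = c • iA 1

variable {𝒜 ℬ L}

/-- `b v`, for `b ∈ ℬ` and `v ∈ L` -/
def Actions.l (X : Actions 𝒜 ℬ L) (b : ℬ) (v : L) : L := X.lact b v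

/-- `v a`, for `v ∈ L` and `a ∈ 𝒜` -/
def Actions.r (X : Actions 𝒜 ℬ L) (v : L) (a : 𝒜) : L := X.ract (op a) v

/-- `a ∈ 𝒜` as an element of `L` -/
def Subspaces.a (T : Subspaces 𝒜 ℬ L) (a : 𝒜) : L := T.iA a

/-- `b ∈ ℬ` as an element of `L` -/
def Subspaces.b (T : Subspaces 𝒜 ℬ L) (b : ℬ) : L := T.iB b

/-- The value `(v, w)` of the form. -/
def val (form : L →ₗ[ℂ] L →ₗ[ℂ] ℂ) (v w : L) : ℂ := form v w

/-- The actions restrict to the multiplications of `ℬ` and of `𝒜`. -/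
structure Restrict (T : Subspaces 𝒜 ℬ L) (X : Actions 𝒜 ℬ L) : Prop where
  left : ∀ b b' : ℬ, X.l b (T.b b') = T.b (b * b')
  right : ∀ a a' : 𝒜, X.r (T.a a) a' = T.a (a * a')

/-- The conditions on the bilinear form. -/
structure GoodForm (T : Subspaces 𝒜 ℬ L) (X : Actions 𝒜 ℬ L) (form : L →ₗ[ℂ] L →ₗ[ℂ] ℂ) :
    Prop where
  symm : ∀ v w : L, val form v w = val form w v
  nondegenerate : ∀ v : L, (∀ w : L, val form v w = 0) → v = 0
  zero_A : ∀ a₁ a₂ : 𝒜, val form (T.a a₁) (T.a a₂) = 0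
  zero_B : ∀ b₁ b₂ : ℬ, val form (T.b b₁) (T.b b₂) = 0
  left : ∀ (b₁ b₂ : ℬ) (v : L), val form (T.b (b₁ * b₂)) v = val form (T.b b₁) (X.l b₂ v)
  right : ∀ (v : L) (a₁ a₂ : 𝒜), val form v (T.a (a₁ * a₂)) = val form (X.r v a₁) (T.a a₂)

variable (𝒜 ℬ L)

/-- A weak `ℳ`-structure on `L`. -/
structure WeakMStructure extends Subspaces 𝒜 ℬ L, Actions 𝒜 ℬ L where
  /-- the bilinear form -/
  form : L →ₗ[ℂ] L →ₗ[ℂ] ℂ
  restrict : Restrict toSubspaces toActions
  goodForm : GoodForm toSubspaces toActions form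

end structures

/-- The space `⨁ Hom(V_i, W_j)^(a i j)`, with `dim V_i = m i`, `dim W_j = n j`. -/
abbrev HomSpace {r s : ℕ} (a : Fin r → Fin s → ℕ) (m : Fin r → ℕ) (n : Fin s → ℕ) : Type :=
  ∀ (i : Fin r) (j : Fin s), Fin (a i j) → Matrix (Fin (n j)) (Fin (m i)) ℂ

/-- The algebra `⨁ End(V_i)`, with `dim V_i = m i`. -/
abbrev EndAlg {r : ℕ} (m : Fin r → ℕ) : Type := ∀ i : Fin r, Matrix (Fin (m i)) (Fin (m i)) ℂ

/-- The coordinates of `v ∈ L`. -/
def coordL {r s : ℕ} {a : Fin r → Fin s → ℕ} {m : Fin r → ℕ} {n : Fin s → ℕ} {L : Type*}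
    [AddCommGroup L] [Module ℂ L] (e : L ≃ₗ[ℂ] HomSpace a m n) (v : L) (i : Fin r) (j : Fin s)
    (k : Fin (a i j)) : Matrix (Fin (n j)) (Fin (m i)) ℂ := e v i j k

/-- The coordinates of an element of the algebra. -/
def coordA {r : ℕ} {m : Fin r → ℕ} {𝒜 : Type*} [Ring 𝒜] [Algebra ℂ 𝒜] (e : 𝒜 ≃ₐ[ℂ] EndAlg m)
    (x : 𝒜) (i : Fin r) : Matrix (Fin (m i)) (Fin (m i)) ℂ := e x i

/-- The two algebras are `𝒜 ≅ ⨁ End(V_i)`, `ℬ ≅ ⨁ End(W_j)` with `dim V_i = m i`,
`dim W_j = n j`, and `L ≅ ⨁ (V_i^* ⊗ W_j)^(a i j) = ⨁ Hom(V_i, W_j)^(a i j)` as a module over both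
algebras. -/
structure Multiplicities {r s : ℕ} (a : Fin r → Fin s → ℕ) (m : Fin r → ℕ) (n : Fin s → ℕ)
    {𝒜 ℬ L : Type*} [Ring 𝒜] [Algebra ℂ 𝒜] [Ring ℬ] [Algebra ℂ ℬ] [AddCommGroup L] [Module ℂ L]
    (X : Actions 𝒜 ℬ L) where
  /-- `𝒜 ≅ ⨁ End(V_i)` -/
  eA : 𝒜 ≃ₐ[ℂ] EndAlg m
  /-- `ℬ ≅ ⨁ End(W_j)` -/
  eB : ℬ ≃ₐ[ℂ] EndAlg n
  /-- `L ≅ ⨁ Hom(V_i, W_j)^(a i j)` -/
  eL : L ≃ₗ[ℂ] HomSpace a m n
  left : ∀ (b : ℬ) (v : L) i j k, coordL eL (X.l b v) i j k = coordA eB b j * coordL eL v i j k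
  right : ∀ (x : 𝒜) (v : L) i j k, coordL eL (X.r v x) i j k = coordL eL v i j k * coordA eA x i

/-- A colouring of the graph `Γ`: a bijection of its vertices with two disjoint sets, such that
there are no edges between the vertices of one set. -/
structure Colouring (Γ : Diagram) (r s : ℕ) where
  /-- the bijection with the vertices -/
  vert : Fin r ⊕ Fin s ≃ Γ.Vert
  /-- there are no edges between the vertices of the first set -/
  colourV : ∀ i i' : Fin r, Γ.adj (vert (Sum.inl i)) (vert (Sum.inl i')) = 0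
  /-- there are no edges between the vertices of the second set -/
  colourW : ∀ j j' : Fin s, Γ.adj (vert (Sum.inr j)) (vert (Sum.inr j')) = 0

/-- The number of edges joining the vertex `i` of the first set and the vertex `j` of the
second. -/
def Colouring.a {Γ : Diagram} {r s : ℕ} (C : Colouring Γ r s) (i : Fin r) (j : Fin s) : ℕ :=
  Γ.adj (C.vert (Sum.inl i)) (C.vert (Sum.inr j))

/-- The coordinates of `m J` at the vertices of the first set. -/
def Colouring.m {Γ : Diagram} {r s : ℕ} (C : Colouring Γ r s) (m : ℕ) (i : Fin r) : ℕ :=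
  m * Γ.J (C.vert (Sum.inl i))

/-- The coordinates of `m J` at the vertices of the second set. -/
def Colouring.n {Γ : Diagram} {r s : ℕ} (C : Colouring Γ r s) (m : ℕ) (j : Fin s) : ℕ :=
  m * Γ.J (C.vert (Sum.inr j))

/-- The structure corresponds to `(Γ, m)`: the spaces `V_1, …, V_r, W_1, …, W_s` correspond
bijectively to the vertices of `Γ`, the `V_i` forming one colour class and the `W_j` the other,
the multiplicities are the numbers of edges, and the dimensions are the coordinates of `m J`. -/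
structure Corresponds (Γ : Diagram) (m : ℕ) {𝒜 ℬ L : Type*} [Ring 𝒜] [Algebra ℂ 𝒜] [Ring ℬ]
    [Algebra ℂ ℬ] [AddCommGroup L] [Module ℂ L] (X : Actions 𝒜 ℬ L) where
  /-- the number of the spaces `V_i` -/
  r : ℕ
  /-- the number of the spaces `W_j` -/
  s : ℕ
  /-- the bijection of the spaces with the vertices, respecting the colour classes -/
  col : Colouring Γ r s
  /-- `𝒜`, `ℬ` and the module `L` -/
  mult : Multiplicities col.a (col.m m) (col.n m) X

end Pool.Agent.KS6_42.MS
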