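import Pool.Agent.KS6_42.MS.Vert
import Pool.Agent.KS6_42.MS.Defs

/-!
# Orthogonal representations of dimension `J` for `Ã` and `D̃`
-/

set_option autoImplicit false

open Matrix

namespace Pool.Agent.KS6_42.MS

section cycle

variable (k : ℕ)

lemma adjA_symm (x y : Fin (2 * k + 2)) : adjA k x y = adjA k y x := Nat.add_comm _ _

/-- The distinguished arrow, between the first and the last vertex. -/
def specialA (x y : Fin (2 * k + 2)) (s : ℕ) : Prop :=
  ((x = 0 ∧ y = Fin.last _) ∨ (x = Fin.last _ ∧ y = 0)) ∧ s + 1 = adjA k x y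

/-- All maps are `1`. -/
def aW0 (_ _ : Fin (2 * k + 2)) (_ : ℕ) : Matrix (Fin 1) (Fin 1) ℂ := 1

open Classical in
/-- All maps are `1` except one. -/
noncomputable def aW1 (x y : Fin (2 * k + 2)) (s : ℕ) : Matrix (Fin 1) (Fin 1) ℂ :=
  if specialA k x y s then 0 else 1

lemma last_add_one : (Fin.last (2 * k + 1) : Fin (2 * k + 2)) + 1 = 0 := Fin.last_add_one _

/-- An edge joins `x` and `x + 1`. -/
lemma adjA_pos (x : Fin (2 * k + 2)) : 0 < adjA k x (x + 1) := by
  unfold adjA; simp

lemma castSucc_add_one (i : Fin (2 * k + 1)) : (i.castSucc + 1 : Fin (2 * k + 2)) = i.succ := by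
  rw [Fin.coeSucc_eq_succ]

/-- The first arrow between `i` and `i + 1` is not the distinguished one. -/
lemma not_special (i : Fin (2 * k + 1)) : ¬ specialA k i.castSucc i.succ 0 := by
  rintro ⟨h | h, h2⟩
  · have h3 : i.val = 0 := by
      have := congrArg Fin.val h.1; simpa using this
    have h4 : i.val + 1 = 2 * k + 1 := by
      have := congrArg Fin.val h.2; simpa using this
    have hk : k = 0 := by omega
    subst hk
    rw [h.1, h.2] at h2
    revert h2
    decide
  · have h3 := h.2
    have := congrArg Fin.val h3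
    simp at this

lemma not_special' (i : Fin (2 * k + 1)) : ¬ specialA k i.succ i.castSucc 0 := by
  rintro ⟨h | h, h2⟩
  · have h3 := h.1
    have := congrArg Fin.val h3
    simp at this
  · have h3 : i.val = 0 := by
      have := congrArg Fin.val h.2; simpa using this
    have h4 : i.val + 1 = 2 * k + 1 := by
      have := congrArg Fin.val h.1; simpa using this
    have hk : k = 0 := by omega
    subst hk
    rw [h.1, h.2] at h2
    revert h2
    decide

lemma special_last : specialA k (Fin.last _) 0 (adjA k (Fin.last _) 0 - 1) := by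
  refine ⟨Or.inr ⟨rfl, rfl⟩, ?_⟩
  have := adjA_pos k (Fin.last _)
  rw [last_add_one] at this
  omega

lemma special_last' : specialA k 0 (Fin.last _) (adjA k 0 (Fin.last _) - 1) := by
  refine ⟨Or.inl ⟨rfl, rfl⟩, ?_⟩
  have := adjA_pos k (Fin.last _)
  rw [last_add_one, adjA_symm] at this
  omega

theorem a_aux (c : Fin (2 * k + 2) → Bool) (hc : ∀ x y, adjA k x y ≠ 0 → c x ≠ c y)
    (γ : Fin (2 * k + 2) → Matrix (Fin 1) (Fin 1) ℂ)
    (h : ∀ x y s, c x = true → c y = false → s < adjA k x y → ¬ specialA k x y s → γ x = γ y)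
    (h' : ∀ x y s, c x = true → c y = false → s < adjA k x y → specialA k x y s →
      γ x = 0 ∨ γ y = 0) (v : Fin (2 * k + 2)) : γ v = 0 := by
  have h1 : ∀ i : Fin (2 * k + 1), γ i.succ = γ i.castSucc := by
    intro i
    have h2 := adjA_pos k i.castSucc
    rw [castSucc_add_one] at h2
    have h3 := hc _ _ h2.ne'
    cases h4 : c i.castSucc
    · have h5 : c i.succ = true := by
        cases h6 : c i.succ
        · exact absurd (h4.trans h6.symm) h3
        · rfl
      rw [adjA_symm] at h2
      exact h _ _ 0 h5 h4 h2 (not_special' k i)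
    · have h5 : c i.succ = false := by
        cases h6 : c i.succ
        · rfl
        · exact absurd (h4.trans h6.symm) h3
      exact (h _ _ 0 h4 h5 h2 (not_special k i)).symm
  have h2 : ∀ v, γ v = γ 0 := by
    intro v
    induction v using Fin.induction with
    | zero => rfl
    | succ i ih => rw [h1, ih]
  have hpos := adjA_pos k (Fin.last _)
  rw [last_add_one] at hpos
  have h3 : γ 0 = 0 := by
    have h4 := hc _ _ hpos.ne'
    cases h5 : c (Fin.last _)
    · have h6 : c 0 = true := by
        cases h7 : c 0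
        · exact absurd (h5.trans h7.symm) h4
        · rfl
      have hpos' := hpos
      rw [adjA_symm] at hpos'
      rcases h' _ _ _ h6 h5 (by omega) (special_last' k) with h8 | h8
      · exact h8
      · rw [← h2]; exact h8
    · have h6 : c 0 = false := by
        cases h7 : c 0
        · rfl
        · exact absurd (h5.trans h7.symm) h4
      rcases h' _ _ _ h5 h6 (by omega) (special_last k) with h8 | h8
      · rw [← h2]; exact h8
      · exact h8
  rw [h2, h3]

theorem a_pairs : HasPairs (adjA k) (fun _ => 1) := by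
  classical
  intro c hc
  refine ⟨aW0 k, aW1 k, ?_, ?_⟩
  · intro γ hγ v
    refine a_aux k c hc γ (fun x y s hx hy hs hsp => ?_) (fun x y s hx hy hs hsp => ?_) v
    · have h1 := hγ x y s hx hy hs
      rw [aW1, if_neg hsp, aW0, Matrix.one_mul, Matrix.mul_one] at h1
      exact h1
    · have h1 := hγ x y s hx hy hs
      rw [aW1, if_pos hsp, aW0, Matrix.zero_mul, Matrix.mul_one] at h1
      exact Or.inr h1.symm
  · intro γ hγ v
    refine a_aux k c hc γ (fun x y s hx hy hs hsp => ?_) (fun x y s hx hy hs hsp => ?_) v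
    · have h1 := hγ x y s hx hy hs
      rw [aW1, if_neg hsp, aW0, Matrix.one_mul, Matrix.mul_one] at h1
      exact h1
    · have h1 := hγ x y s hx hy hs
      rw [aW1, if_pos hsp, aW0, Matrix.one_mul, Matrix.mul_zero] at h1
      exact Or.inl h1

theorem a_balance (x : Fin (2 * k + 2)) : ∑ y, adjA k x y * 1 = 2 * 1 := by
  simp only [mul_one, adjA]
  rw [Finset.sum_add_distrib, Finset.sum_ite_eq' Finset.univ (x + 1)]
  have : ∀ y : Fin (2 * k + 2), (x = y + 1) ↔ (y = x - 1) := fun y => by
    constructor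
    · rintro rfl; simp
    · rintro rfl; simp
  simp [this]

end cycle

section tree

variable (n : ℕ)

lemma adjD_symm (x y : VertD n) : adjD n x y = adjD n y x := by
  rcases x with i | l <;> rcases y with j | m
  · show (if _ then 1 else 0) = (if _ then 1 else 0)
    simp only [or_comm]
  · rfl
  · rfl
  · rfl

/-- The representation with identities on the chain and the leaf `l` attached by the basis vector
or coordinate `u l`. -/
def dW (u : Fin 4 → Fin 2) : ∀ x y : VertD n, ℕ → Matrix (Fin (JD n y)) (Fin (JD n x)) ℂ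
  | Sum.inl _, Sum.inl _, _ => (1 : Matrix (Fin 2) (Fin 2) ℂ)
  | Sum.inl _, Sum.inr l, _ => (Matrix.of fun _ j => if j = u l then 1 else 0 :
      Matrix (Fin 1) (Fin 2) ℂ)
  | Sum.inr l, Sum.inl _, _ => (Matrix.of fun i _ => if i = u l then 1 else 0 :
      Matrix (Fin 2) (Fin 1) ℂ)
  | Sum.inr _, Sum.inr _, _ => 0

theorem d_hom (u u' : Fin 4 → Fin 2)
    (hu : (u = ![0, 1, 0, 1] ∧ u' = ![0, 1, 1, 0]) ∨ (u = ![0, 1, 1, 0] ∧ u' = ![0, 1, 0, 1]))
    (c : VertD n → Bool) (hc : ∀ x y, adjD n x y ≠ 0 → c x ≠ c y) :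
    Hom0 (adjD n) (JD n) c (dW n u) (dW n u') := by
  intro γ hγ
  let G : Fin (n + 1) → Matrix (Fin 2) (Fin 2) ℂ := fun i => γ (Sum.inl i)
  let s : Fin 4 → Matrix (Fin 1) (Fin 1) ℂ := fun l => γ (Sum.inr l)
  have hG : ∀ i : Fin n, G i.succ = G i.castSucc := by
    intro i
    have e1 : adjD n (Sum.inl i.castSucc) (Sum.inl i.succ) = 1 := by
      show (if _ then 1 else 0) = 1
      rw [if_pos (Or.inl (by simp))]
    have e2 : adjD n (Sum.inl i.succ) (Sum.inl i.castSucc) = 1 := by rw [adjD_symm]; exact e1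
    have e3 := hc _ _ (by rw [e1]; exact one_ne_zero)
    cases h4 : c (Sum.inl i.castSucc)
    · have h5 : c (Sum.inl i.succ) = true := by
        cases h6 : c (Sum.inl i.succ)
        · exact absurd (h4.trans h6.symm) e3
        · rfl
      have h7 := hγ _ _ 0 h5 h4 (by rw [e2]; exact one_pos)
      have h8 : (1 : Matrix (Fin 2) (Fin 2) ℂ) * G i.succ = G i.castSucc * 1 := h7
      rwa [Matrix.one_mul, Matrix.mul_one] at h8
    · have h5 : c (Sum.inl i.succ) = false := by
        cases h6 : c (Sum.inl i.succ)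
        · rfl
        · exact absurd (h4.trans h6.symm) e3
      have h7 := hγ _ _ 0 h4 h5 (by rw [e1]; exact one_pos)
      have h8 : (1 : Matrix (Fin 2) (Fin 2) ℂ) * G i.castSucc = G i.succ * 1 := h7
      rw [Matrix.one_mul, Matrix.mul_one] at h8
      exact h8.symm
  have hG0 : ∀ i, G i = G 0 := by
    intro i
    induction i using Fin.induction with
    | zero => rfl
    | succ i ih => rw [hG, ih]
  have hatt : ∀ l, adjD n (Sum.inr l) (Sum.inl (attD n l)) = 1 := fun l => by
    show (if _ then 1 else 0) = 1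
    rw [if_pos rfl]
  have hatt' : ∀ l, adjD n (Sum.inl (attD n l)) (Sum.inr l) = 1 := fun l => by
    show (if _ then 1 else 0) = 1
    rw [if_pos rfl]
  -- the equations at the leaves
  have hsrc : ∀ l, c (Sum.inr l) = true → ∀ r, (if r = u' l then s l 0 0 else 0) = G 0 r (u l) := by
    intro l hl r
    have e3 := hc _ _ (by rw [hatt l]; exact one_ne_zero)
    have h5 : c (Sum.inl (attD n l)) = false := by
      cases h6 : c (Sum.inl (attD n l))
      · rfl
      · exact absurd (hl.trans h6.symm) e3
    have h7 := hγ _ _ 0 hl h5 (by rw [hatt]; exact one_pos)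
    have h8 : (Matrix.of fun i _ => if i = u' l then 1 else 0 : Matrix (Fin 2) (Fin 1) ℂ) * s l =
      G (attD n l) * (Matrix.of fun i _ => if i = u l then 1 else 0 : Matrix (Fin 2) (Fin 1) ℂ) := h7
    have h9 := congrFun (congrFun h8 r) 0
    rw [hG0, Matrix.mul_apply, Matrix.mul_apply] at h9
    simpa using h9
  have hsnk : ∀ l, c (Sum.inr l) = false → ∀ r, G 0 (u' l) r = (if r = u l then s l 0 0 else 0) := by
    intro l hl r
    have e3 := hc _ _ (by rw [hatt l]; exact one_ne_zero)
    have h5 : c (Sum.inl (attD n l)) = true := by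
      cases h6 : c (Sum.inl (attD n l))
      · exact absurd (hl.trans h6.symm) e3
      · rfl
    have h7 := hγ _ _ 0 h5 hl (by rw [hatt']; exact one_pos)
    have h8 : (Matrix.of fun _ j => if j = u' l then 1 else 0 : Matrix (Fin 1) (Fin 2) ℂ) *
      G (attD n l) =
      s l * (Matrix.of fun _ j => if j = u l then 1 else 0 : Matrix (Fin 1) (Fin 2) ℂ) := h7
    have h9 := congrFun (congrFun h8 0) r
    rw [hG0, Matrix.mul_apply, Matrix.mul_apply] at h9
    simpa using h9
  -- leaves at the same end have the same colour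
  have hsame : ∀ l l', attD n l = attD n l' → c (Sum.inr l) = c (Sum.inr l') := by
    intro l l' h
    have e3 := hc _ _ (by rw [hatt l]; exact one_ne_zero)
    have e4 := hc _ _ (by rw [hatt l']; exact one_ne_zero)
    rw [h] at e3
    cases h5 : c (Sum.inr l) <;> cases h6 : c (Sum.inr l') <;>
      cases h7 : c (Sum.inl (attD n l')) <;> simp_all
  have c01 : c (Sum.inr 1) = c (Sum.inr 0) := hsame _ _ rfl
  have c23 : c (Sum.inr 3) = c (Sum.inr 2) := hsame _ _ rfl
  have hall : (∀ l, s l 0 0 = 0) ∧ ∀ i j, G 0 i j = 0 := by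
    rcases hu with ⟨rfl, rfl⟩ | ⟨rfl, rfl⟩ <;>
    · have a0 : G 0 0 1 = 0 ∧ G 0 1 0 = 0 ∧ s 0 0 0 = G 0 0 0 ∧ s 1 0 0 = G 0 1 1 := by
        cases h0 : c (Sum.inr 0)
        · rw [h0] at c01
          have p1 := hsnk 0 h0 0
          have p2 := hsnk 0 h0 1
          have p3 := hsnk 1 c01 0
          have p4 := hsnk 1 c01 1
          simp at p1 p2 p3 p4
          exact ⟨p2, p3, p1.symm, p4.symm⟩
        · rw [h0] at c01
          have p1 := hsrc 0 h0 0
          have p2 := hsrc 0 h0 1
          have p3 := hsrc 1 c01 0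
          have p4 := hsrc 1 c01 1
          simp at p1 p2 p3 p4
          exact ⟨p3.symm, p2.symm, p1, p4⟩
      have a1 : G 0 0 0 = 0 ∧ G 0 1 1 = 0 ∧ s 2 0 0 = 0 ∧ s 3 0 0 = 0 := by
        obtain ⟨b1, b2, -, -⟩ := a0
        cases h0 : c (Sum.inr 2)
        · rw [h0] at c23
          have p1 := hsnk 2 h0 0
          have p2 := hsnk 2 h0 1
          have p3 := hsnk 3 c23 0
          have p4 := hsnk 3 c23 1
          simp [b1, b2] at p1 p2 p3 p4
          refine ⟨?_, ?_, ?_, ?_⟩ <;> first
            | exact p1 | exact p2 | exact p3 | exact p4 | exact p1.symm | exact p2.symm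
            | exact p3.symm | exact p4.symm
        · rw [h0] at c23
          have p1 := hsrc 2 h0 0
          have p2 := hsrc 2 h0 1
          have p3 := hsrc 3 c23 0
          have p4 := hsrc 3 c23 1
          simp [b1, b2] at p1 p2 p3 p4
          refine ⟨?_, ?_, ?_, ?_⟩ <;> first
            | exact p1 | exact p2 | exact p3 | exact p4 | exact p1.symm | exact p2.symm
            | exact p3.symm | exact p4.symm
      obtain ⟨b1, b2, b3, b4⟩ := a0
      obtain ⟨d1, d2, d3, d4⟩ := a1
      refine ⟨fun l => ?_, fun i j => ?_⟩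
      · fin_cases l
        · exact b3.trans d1
        · exact b4.trans d2
        · exact d3
        · exact d4
      · fin_cases i <;> fin_cases j
        · exact d1
        · exact b1
        · exact b2
        · exact d2
  rintro (i | l)
  · show G i = 0
    rw [hG0]
    ext a b
    exact hall.2 a b
  · show s l = 0
    ext a b
    have ha : a = 0 := Subsingleton.elim _ _
    have hb : b = 0 := Subsingleton.elim _ _
    rw [ha, hb]
    exact hall.1 l

theorem d_pairs : HasPairs (adjD n) (JD n) := by
  intro c hc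
  exact ⟨dW n ![0, 1, 0, 1], dW n ![0, 1, 1, 0],
    d_hom n _ _ (Or.inl ⟨rfl, rfl⟩) c hc, d_hom n _ _ (Or.inr ⟨rfl, rfl⟩) c hc⟩

lemma sum_ind (m : ℕ) : ∑ j : Fin (n + 1), (if m = j.val then 1 else 0) =
    if m < n + 1 then 1 else 0 := by
  split_ifs with h
  · have : ∀ j : Fin (n + 1), (m = j.val) ↔ (j = ⟨m, h⟩) := fun j => by
      rw [Fin.ext_iff]; exact eq_comm
    simp [this]
  · refine Finset.sum_eq_zero fun j _ => ?_
    rw [if_neg]
    have := j.isLt
    omega

theorem d_balance (x : VertD n) : ∑ y, adjD n x y * JD n y = 2 * JD n x := by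
  rw [Fintype.sum_sum_type]
  rcases x with i | l
  · show ∑ j : Fin (n + 1), (if i.val + 1 = j.val ∨ j.val + 1 = i.val then 1 else 0) * 2 +
      ∑ l : Fin 4, (if i = attD n l then 1 else 0) * 1 = 2 * 2
    rw [← Finset.sum_mul]
    have e1 : ∑ j : Fin (n + 1), (if i.val + 1 = j.val ∨ j.val + 1 = i.val then 1 else 0) =
        (if i.val + 1 < n + 1 then 1 else 0) + (if 0 < i.val then 1 else 0) := by
      have e2 : ∀ j : Fin (n + 1), (if i.val + 1 = j.val ∨ j.val + 1 = i.val then 1 else 0) =
          (if i.val + 1 = j.val then 1 else 0) + (if 0 < i.val ∧ i.val - 1 = j.val then 1 else 0) := by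
        intro j
        split_ifs <;> omega
      rw [Finset.sum_congr rfl fun j _ => e2 j, Finset.sum_add_distrib, sum_ind]
      congr 1
      by_cases h : 0 < i.val
      · simp only [h, true_and, if_true]
        rw [sum_ind, if_pos]
        omega
      · simp only [h, false_and, if_false, Finset.sum_const_zero]
    rw [e1, Fin.sum_univ_four]
    have e3 : attD n 0 = 0 := rfl
    have e4 : attD n 1 = 0 := rfl
    have e5 : attD n 2 = Fin.last n := rfl
    have e6 : attD n 3 = Fin.last n := rfl
    rw [e3, e4, e5, e6]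
    have e7 : (i = 0) ↔ i.val = 0 := by rw [Fin.ext_iff]; rfl
    have e8 : (i = Fin.last n) ↔ i.val = n := by rw [Fin.ext_iff]; rfl
    simp only [e7, e8]
    have := i.isLt
    split_ifs <;> omega
  · show ∑ j : Fin (n + 1), (if j = attD n l then 1 else 0) * 2 + ∑ _l : Fin 4, 0 * 1 = 2 * 1
    simp

end tree

end Pool.Agent.KS6_42.MS
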