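import Mathlib

set_option autoImplicit false

namespace Pool.Agent.KS6_42.MS

/-- An entry of a matrix equation. -/
theorem ent {m n m' n' : ℕ} {A : Matrix (Fin m') (Fin m) ℂ} {g : Matrix (Fin m) (Fin n) ℂ}
    {g' : Matrix (Fin m') (Fin n') ℂ} {B : Matrix (Fin n') (Fin n) ℂ} (h : A * g = g' * B)
    (i : Fin m') (j : Fin n) : ∑ k, A i k * g k j = ∑ k, g' i k * B k j := by
  rw [← Matrix.mul_apply, ← Matrix.mul_apply, h]

end Pool.Agent.KS6_42.MS
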