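import Pool.Agent.KS6_42.MS.Vert
import Pool.Agent.KS6_42.MS.Defs
import Pool.Agent.KS6_42.MS.Ent

/-!
# Orthogonal representations of dimension `J` for `Ẽ₇`

Generated by a script: each entry of a homomorphism is shown to be zero by one of the equations.
-/

set_option autoImplicit false

open Matrix

namespace Pool.Agent.KS6_42.MS

/-- There is no nonzero homomorphism from `W0` to `W1`. -/
theorem e7_01
    (g0 : Matrix (Fin 4) (Fin 4) ℂ)
    (g1 : Matrix (Fin 2) (Fin 2) ℂ)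
    (g2 : Matrix (Fin 3) (Fin 3) ℂ)
    (g3 : Matrix (Fin 2) (Fin 2) ℂ)
    (g4 : Matrix (Fin 1) (Fin 1) ℂ)
    (g5 : Matrix (Fin 3) (Fin 3) ℂ)
    (g6 : Matrix (Fin 2) (Fin 2) ℂ)
    (g7 : Matrix (Fin 1) (Fin 1) ℂ)
    (h01 : (!![1, 0, 0, 0; 0, 0, 1, 0] : Matrix (Fin 2) (Fin 4) ℂ) * g0 =
      g1 * (!![0, 1, 0, 0; 0, 0, 0, 1] : Matrix (Fin 2) (Fin 4) ℂ))
    (h02 : (!![0, 1, 0, 0; 0, 0, 1, 0; 0, 0, 0, 1] : Matrix (Fin 3) (Fin 4) ℂ) * g0 =
      g2 * (!![1, 0, 0, 0; 0, 0, 1, 0; 0, 0, 0, 1] : Matrix (Fin 3) (Fin 4) ℂ))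
    (h32 : (!![0, 0; 1, 0; 0, 1] : Matrix (Fin 3) (Fin 2) ℂ) * g3 =
      g2 * (!![0, 0; 1, 0; 0, 1] : Matrix (Fin 3) (Fin 2) ℂ))
    (h34 : (!![0, 1] : Matrix (Fin 1) (Fin 2) ℂ) * g3 =
      g4 * (!![0, 1] : Matrix (Fin 1) (Fin 2) ℂ))
    (h05 : (!![1, 1, 0, 0; 0, 0, 1, 0; 0, 0, 0, 1] : Matrix (Fin 3) (Fin 4) ℂ) * g0 =
      g5 * (!![1, 0, 0, 0; 0, 1, 0, 0; 0, 0, 1, 0] : Matrix (Fin 3) (Fin 4) ℂ))
    (h65 : (!![0, 0; 1, 0; 0, 1] : Matrix (Fin 3) (Fin 2) ℂ) * g6 =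
      g5 * (!![1, 0; 0, 1; 0, 0] : Matrix (Fin 3) (Fin 2) ℂ))
    (h67 : (!![0, 1] : Matrix (Fin 1) (Fin 2) ℂ) * g6 =
      g7 * (!![0, 1] : Matrix (Fin 1) (Fin 2) ℂ))
    : g0 = 0 ∧ g1 = 0 ∧ g2 = 0 ∧ g3 = 0 ∧ g4 = 0 ∧ g5 = 0 ∧ g6 = 0 ∧ g7 = 0 := by
  have z0_00 : g0 0 0 = 0 := by
    simpa [Fin.sum_univ_two, Fin.sum_univ_four] using ent h01 0 0
  have z0_02 : g0 0 2 = 0 := by
    simpa [Fin.sum_univ_two, Fin.sum_univ_four] using ent h01 0 2
  have z0_20 : g0 2 0 = 0 := by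
    simpa [Fin.sum_univ_two, Fin.sum_univ_four] using ent h01 1 0
  have z0_22 : g0 2 2 = 0 := by
    simpa [Fin.sum_univ_two, Fin.sum_univ_four] using ent h01 1 2
  have z0_11 : g0 1 1 = 0 := by
    simpa [Fin.sum_univ_three, Fin.sum_univ_four] using ent h02 0 1
  have z2_10 : g2 1 0 = 0 := by
    simpa [Fin.sum_univ_three, Fin.sum_univ_four, z0_20] using (ent h02 1 0).symm
  have z0_21 : g0 2 1 = 0 := by
    simpa [Fin.sum_univ_three, Fin.sum_univ_four] using ent h02 1 1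
  have z2_11 : g2 1 1 = 0 := by
    simpa [Fin.sum_univ_three, Fin.sum_univ_four, z0_22] using (ent h02 1 2).symm
  have z0_31 : g0 3 1 = 0 := by
    simpa [Fin.sum_univ_three, Fin.sum_univ_four] using ent h02 2 1
  have z2_01 : g2 0 1 = 0 := by
    simpa [Fin.sum_univ_two, Fin.sum_univ_three] using (ent h32 0 0).symm
  have z2_02 : g2 0 2 = 0 := by
    simpa [Fin.sum_univ_two, Fin.sum_univ_three] using (ent h32 0 1).symm
  have z3_00 : g3 0 0 = 0 := by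
    simpa [Fin.sum_univ_two, Fin.sum_univ_three, z2_11] using ent h32 1 0
  have z3_10 : g3 1 0 = 0 := by
    simpa [Fin.sum_univ_one, Fin.sum_univ_two] using ent h34 0 0
  have z5_10 : g5 1 0 = 0 := by
    simpa [Fin.sum_univ_three, Fin.sum_univ_four, z0_20] using (ent h05 1 0).symm
  have z5_11 : g5 1 1 = 0 := by
    simpa [Fin.sum_univ_three, Fin.sum_univ_four, z0_21] using (ent h05 1 1).symm
  have z5_12 : g5 1 2 = 0 := by
    simpa [Fin.sum_univ_three, Fin.sum_univ_four, z0_22] using (ent h05 1 2).symm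
  have z0_23 : g0 2 3 = 0 := by
    simpa [Fin.sum_univ_three, Fin.sum_univ_four] using ent h05 1 3
  have z5_21 : g5 2 1 = 0 := by
    simpa [Fin.sum_univ_three, Fin.sum_univ_four, z0_31] using (ent h05 2 1).symm
  have z0_33 : g0 3 3 = 0 := by
    simpa [Fin.sum_univ_three, Fin.sum_univ_four] using ent h05 2 3
  have z5_00 : g5 0 0 = 0 := by
    simpa [Fin.sum_univ_two, Fin.sum_univ_three] using (ent h65 0 0).symm
  have z5_01 : g5 0 1 = 0 := by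
    simpa [Fin.sum_univ_two, Fin.sum_univ_three] using (ent h65 0 1).symm
  have z6_00 : g6 0 0 = 0 := by
    simpa [Fin.sum_univ_two, Fin.sum_univ_three, z5_10] using ent h65 1 0
  have z6_01 : g6 0 1 = 0 := by
    simpa [Fin.sum_univ_two, Fin.sum_univ_three, z5_11] using ent h65 1 1
  have z6_11 : g6 1 1 = 0 := by
    simpa [Fin.sum_univ_two, Fin.sum_univ_three, z5_21] using ent h65 2 1
  have z6_10 : g6 1 0 = 0 := by
    simpa [Fin.sum_univ_one, Fin.sum_univ_two] using ent h67 0 0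
  have z7_00 : g7 0 0 = 0 := by
    simpa [Fin.sum_univ_one, Fin.sum_univ_two, z6_11] using (ent h67 0 1).symm
  have z1_10 : g1 1 0 = 0 := by
    simpa [Fin.sum_univ_two, Fin.sum_univ_four, z0_21] using (ent h01 1 1).symm
  have z1_11 : g1 1 1 = 0 := by
    simpa [Fin.sum_univ_two, Fin.sum_univ_four, z0_23] using (ent h01 1 3).symm
  have z0_12 : g0 1 2 = 0 := by
    simpa [Fin.sum_univ_three, Fin.sum_univ_four, z2_01] using ent h02 0 2
  have z0_13 : g0 1 3 = 0 := by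
    simpa [Fin.sum_univ_three, Fin.sum_univ_four, z2_02] using ent h02 0 3
  have z2_12 : g2 1 2 = 0 := by
    simpa [Fin.sum_univ_three, Fin.sum_univ_four, z0_23] using (ent h02 1 3).symm
  have z2_22 : g2 2 2 = 0 := by
    simpa [Fin.sum_univ_three, Fin.sum_univ_four, z0_33] using (ent h02 2 3).symm
  have z3_01 : g3 0 1 = 0 := by
    simpa [Fin.sum_univ_two, Fin.sum_univ_three, z2_12] using ent h32 1 1
  have z2_21 : g2 2 1 = 0 := by
    simpa [Fin.sum_univ_two, Fin.sum_univ_three, z3_10] using (ent h32 2 0).symm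
  have z3_11 : g3 1 1 = 0 := by
    simpa [Fin.sum_univ_two, Fin.sum_univ_three, z2_22] using ent h32 2 1
  have z4_00 : g4 0 0 = 0 := by
    simpa [Fin.sum_univ_one, Fin.sum_univ_two, z3_11] using (ent h34 0 1).symm
  have z0_10 : g0 1 0 = 0 := by
    simpa [Fin.sum_univ_three, Fin.sum_univ_four, z0_00, z5_00] using ent h05 0 0
  have z0_01 : g0 0 1 = 0 := by
    simpa [Fin.sum_univ_three, Fin.sum_univ_four, z0_11, z5_01] using ent h05 0 1
  have z5_02 : g5 0 2 = 0 := by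
    simpa [Fin.sum_univ_three, Fin.sum_univ_four, z0_02, z0_12] using (ent h05 0 2).symm
  have z0_03 : g0 0 3 = 0 := by
    simpa [Fin.sum_univ_three, Fin.sum_univ_four, z0_13] using ent h05 0 3
  have z5_20 : g5 2 0 = 0 := by
    simpa [Fin.sum_univ_two, Fin.sum_univ_three, z6_10] using (ent h65 2 0).symm
  have z1_00 : g1 0 0 = 0 := by
    simpa [Fin.sum_univ_two, Fin.sum_univ_four, z0_01] using (ent h01 0 1).symm
  have z1_01 : g1 0 1 = 0 := by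
    simpa [Fin.sum_univ_two, Fin.sum_univ_four, z0_03] using (ent h01 0 3).symm
  have z2_00 : g2 0 0 = 0 := by
    simpa [Fin.sum_univ_three, Fin.sum_univ_four, z0_10] using (ent h02 0 0).symm
  have z0_32 : g0 3 2 = 0 := by
    simpa [Fin.sum_univ_three, Fin.sum_univ_four, z2_21] using ent h02 2 2
  have z0_30 : g0 3 0 = 0 := by
    simpa [Fin.sum_univ_three, Fin.sum_univ_four, z5_20] using ent h05 2 0
  have z5_22 : g5 2 2 = 0 := by
    simpa [Fin.sum_univ_three, Fin.sum_univ_four, z0_32] using (ent h05 2 2).symm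
  have z2_20 : g2 2 0 = 0 := by
    simpa [Fin.sum_univ_three, Fin.sum_univ_four, z0_30] using (ent h02 2 0).symm
  have f0 : g0 = 0 := by
    ext i j
    fin_cases i <;> fin_cases j
    exacts [z0_00, z0_01, z0_02, z0_03, z0_10, z0_11, z0_12, z0_13,
      z0_20, z0_21, z0_22, z0_23, z0_30, z0_31, z0_32, z0_33]
  have f1 : g1 = 0 := by
    ext i j
    fin_cases i <;> fin_cases j
    exacts [z1_00, z1_01, z1_10, z1_11]
  have f2 : g2 = 0 := by
    ext i j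
    fin_cases i <;> fin_cases j
    exacts [z2_00, z2_01, z2_02, z2_10, z2_11, z2_12, z2_20, z2_21,
      z2_22]
  have f3 : g3 = 0 := by
    ext i j
    fin_cases i <;> fin_cases j
    exacts [z3_00, z3_01, z3_10, z3_11]
  have f4 : g4 = 0 := by
    ext i j
    fin_cases i; fin_cases j; exact z4_00
  have f5 : g5 = 0 := by
    ext i j
    fin_cases i <;> fin_cases j
    exacts [z5_00, z5_01, z5_02, z5_10, z5_11, z5_12, z5_20, z5_21,
      z5_22]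
  have f6 : g6 = 0 := by
    ext i j
    fin_cases i <;> fin_cases j
    exacts [z6_00, z6_01, z6_10, z6_11]
  have f7 : g7 = 0 := by
    ext i j
    fin_cases i; fin_cases j; exact z7_00
  exact ⟨f0, f1, f2, f3, f4, f5, f6, f7⟩

/-- There is no nonzero homomorphism from `W1` to `W0`. -/
theorem e7_10
    (g0 : Matrix (Fin 4) (Fin 4) ℂ)
    (g1 : Matrix (Fin 2) (Fin 2) ℂ)
    (g2 : Matrix (Fin 3) (Fin 3) ℂ)
    (g3 : Matrix (Fin 2) (Fin 2) ℂ)
    (g4 : Matrix (Fin 1) (Fin 1) ℂ)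
    (g5 : Matrix (Fin 3) (Fin 3) ℂ)
    (g6 : Matrix (Fin 2) (Fin 2) ℂ)
    (g7 : Matrix (Fin 1) (Fin 1) ℂ)
    (h01 : (!![0, 1, 0, 0; 0, 0, 0, 1] : Matrix (Fin 2) (Fin 4) ℂ) * g0 =
      g1 * (!![1, 0, 0, 0; 0, 0, 1, 0] : Matrix (Fin 2) (Fin 4) ℂ))
    (h02 : (!![1, 0, 0, 0; 0, 0, 1, 0; 0, 0, 0, 1] : Matrix (Fin 3) (Fin 4) ℂ) * g0 =
      g2 * (!![0, 1, 0, 0; 0, 0, 1, 0; 0, 0, 0, 1] : Matrix (Fin 3) (Fin 4) ℂ))
    (h32 : (!![0, 0; 1, 0; 0, 1] : Matrix (Fin 3) (Fin 2) ℂ) * g3 =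
      g2 * (!![0, 0; 1, 0; 0, 1] : Matrix (Fin 3) (Fin 2) ℂ))
    (h34 : (!![0, 1] : Matrix (Fin 1) (Fin 2) ℂ) * g3 =
      g4 * (!![0, 1] : Matrix (Fin 1) (Fin 2) ℂ))
    (h05 : (!![1, 0, 0, 0; 0, 1, 0, 0; 0, 0, 1, 0] : Matrix (Fin 3) (Fin 4) ℂ) * g0 =
      g5 * (!![1, 1, 0, 0; 0, 0, 1, 0; 0, 0, 0, 1] : Matrix (Fin 3) (Fin 4) ℂ))
    (h65 : (!![1, 0; 0, 1; 0, 0] : Matrix (Fin 3) (Fin 2) ℂ) * g6 =
      g5 * (!![0, 0; 1, 0; 0, 1] : Matrix (Fin 3) (Fin 2) ℂ))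
    (h67 : (!![0, 1] : Matrix (Fin 1) (Fin 2) ℂ) * g6 =
      g7 * (!![0, 1] : Matrix (Fin 1) (Fin 2) ℂ))
    : g0 = 0 ∧ g1 = 0 ∧ g2 = 0 ∧ g3 = 0 ∧ g4 = 0 ∧ g5 = 0 ∧ g6 = 0 ∧ g7 = 0 := by
  have z0_11 : g0 1 1 = 0 := by
    simpa [Fin.sum_univ_two, Fin.sum_univ_four] using ent h01 0 1
  have z0_13 : g0 1 3 = 0 := by
    simpa [Fin.sum_univ_two, Fin.sum_univ_four] using ent h01 0 3
  have z0_31 : g0 3 1 = 0 := by
    simpa [Fin.sum_univ_two, Fin.sum_univ_four] using ent h01 1 1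
  have z0_33 : g0 3 3 = 0 := by
    simpa [Fin.sum_univ_two, Fin.sum_univ_four] using ent h01 1 3
  have z0_00 : g0 0 0 = 0 := by
    simpa [Fin.sum_univ_three, Fin.sum_univ_four] using ent h02 0 0
  have z0_20 : g0 2 0 = 0 := by
    simpa [Fin.sum_univ_three, Fin.sum_univ_four] using ent h02 1 0
  have z0_30 : g0 3 0 = 0 := by
    simpa [Fin.sum_univ_three, Fin.sum_univ_four] using ent h02 2 0
  have z2_20 : g2 2 0 = 0 := by
    simpa [Fin.sum_univ_three, Fin.sum_univ_four, z0_31] using (ent h02 2 1).symm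
  have z2_22 : g2 2 2 = 0 := by
    simpa [Fin.sum_univ_three, Fin.sum_univ_four, z0_33] using (ent h02 2 3).symm
  have z2_01 : g2 0 1 = 0 := by
    simpa [Fin.sum_univ_two, Fin.sum_univ_three] using (ent h32 0 0).symm
  have z2_02 : g2 0 2 = 0 := by
    simpa [Fin.sum_univ_two, Fin.sum_univ_three] using (ent h32 0 1).symm
  have z3_11 : g3 1 1 = 0 := by
    simpa [Fin.sum_univ_two, Fin.sum_univ_three, z2_22] using ent h32 2 1
  have z3_10 : g3 1 0 = 0 := by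
    simpa [Fin.sum_univ_one, Fin.sum_univ_two] using ent h34 0 0
  have z4_00 : g4 0 0 = 0 := by
    simpa [Fin.sum_univ_one, Fin.sum_univ_two, z3_11] using (ent h34 0 1).symm
  have z5_00 : g5 0 0 = 0 := by
    simpa [Fin.sum_univ_three, Fin.sum_univ_four, z0_00] using (ent h05 0 0).symm
  have z0_01 : g0 0 1 = 0 := by
    simpa [Fin.sum_univ_three, Fin.sum_univ_four, z5_00] using ent h05 0 1
  have z5_10 : g5 1 0 = 0 := by
    simpa [Fin.sum_univ_three, Fin.sum_univ_four, z0_11] using (ent h05 1 1).symm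
  have z5_12 : g5 1 2 = 0 := by
    simpa [Fin.sum_univ_three, Fin.sum_univ_four, z0_13] using (ent h05 1 3).symm
  have z5_20 : g5 2 0 = 0 := by
    simpa [Fin.sum_univ_three, Fin.sum_univ_four, z0_20] using (ent h05 2 0).symm
  have z0_21 : g0 2 1 = 0 := by
    simpa [Fin.sum_univ_three, Fin.sum_univ_four, z5_20] using ent h05 2 1
  have z6_11 : g6 1 1 = 0 := by
    simpa [Fin.sum_univ_two, Fin.sum_univ_three, z5_12] using ent h65 1 1
  have z5_21 : g5 2 1 = 0 := by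
    simpa [Fin.sum_univ_two, Fin.sum_univ_three] using (ent h65 2 0).symm
  have z5_22 : g5 2 2 = 0 := by
    simpa [Fin.sum_univ_two, Fin.sum_univ_three] using (ent h65 2 1).symm
  have z6_10 : g6 1 0 = 0 := by
    simpa [Fin.sum_univ_one, Fin.sum_univ_two] using ent h67 0 0
  have z7_00 : g7 0 0 = 0 := by
    simpa [Fin.sum_univ_one, Fin.sum_univ_two, z6_11] using (ent h67 0 1).symm
  have z1_10 : g1 1 0 = 0 := by
    simpa [Fin.sum_univ_two, Fin.sum_univ_four, z0_30] using (ent h01 1 0).symm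
  have z2_00 : g2 0 0 = 0 := by
    simpa [Fin.sum_univ_three, Fin.sum_univ_four, z0_01] using (ent h02 0 1).symm
  have z0_02 : g0 0 2 = 0 := by
    simpa [Fin.sum_univ_three, Fin.sum_univ_four, z2_01] using ent h02 0 2
  have z0_03 : g0 0 3 = 0 := by
    simpa [Fin.sum_univ_three, Fin.sum_univ_four, z2_02] using ent h02 0 3
  have z2_10 : g2 1 0 = 0 := by
    simpa [Fin.sum_univ_three, Fin.sum_univ_four, z0_21] using (ent h02 1 1).symm
  have z2_21 : g2 2 1 = 0 := by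
    simpa [Fin.sum_univ_two, Fin.sum_univ_three, z3_10] using (ent h32 2 0).symm
  have z5_01 : g5 0 1 = 0 := by
    simpa [Fin.sum_univ_three, Fin.sum_univ_four, z0_02] using (ent h05 0 2).symm
  have z5_02 : g5 0 2 = 0 := by
    simpa [Fin.sum_univ_three, Fin.sum_univ_four, z0_03] using (ent h05 0 3).symm
  have z0_10 : g0 1 0 = 0 := by
    simpa [Fin.sum_univ_three, Fin.sum_univ_four, z5_10] using ent h05 1 0
  have z0_22 : g0 2 2 = 0 := by
    simpa [Fin.sum_univ_three, Fin.sum_univ_four, z5_21] using ent h05 2 2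
  have z0_23 : g0 2 3 = 0 := by
    simpa [Fin.sum_univ_three, Fin.sum_univ_four, z5_22] using ent h05 2 3
  have z6_00 : g6 0 0 = 0 := by
    simpa [Fin.sum_univ_two, Fin.sum_univ_three, z5_01] using ent h65 0 0
  have z6_01 : g6 0 1 = 0 := by
    simpa [Fin.sum_univ_two, Fin.sum_univ_three, z5_02] using ent h65 0 1
  have z5_11 : g5 1 1 = 0 := by
    simpa [Fin.sum_univ_two, Fin.sum_univ_three, z6_10] using (ent h65 1 0).symm
  have z1_00 : g1 0 0 = 0 := by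
    simpa [Fin.sum_univ_two, Fin.sum_univ_four, z0_10] using (ent h01 0 0).symm
  have z2_11 : g2 1 1 = 0 := by
    simpa [Fin.sum_univ_three, Fin.sum_univ_four, z0_22] using (ent h02 1 2).symm
  have z2_12 : g2 1 2 = 0 := by
    simpa [Fin.sum_univ_three, Fin.sum_univ_four, z0_23] using (ent h02 1 3).symm
  have z0_32 : g0 3 2 = 0 := by
    simpa [Fin.sum_univ_three, Fin.sum_univ_four, z2_21] using ent h02 2 2
  have z3_00 : g3 0 0 = 0 := by
    simpa [Fin.sum_univ_two, Fin.sum_univ_three, z2_11] using ent h32 1 0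
  have z3_01 : g3 0 1 = 0 := by
    simpa [Fin.sum_univ_two, Fin.sum_univ_three, z2_12] using ent h32 1 1
  have z0_12 : g0 1 2 = 0 := by
    simpa [Fin.sum_univ_three, Fin.sum_univ_four, z5_11] using ent h05 1 2
  have z1_01 : g1 0 1 = 0 := by
    simpa [Fin.sum_univ_two, Fin.sum_univ_four, z0_12] using (ent h01 0 2).symm
  have z1_11 : g1 1 1 = 0 := by
    simpa [Fin.sum_univ_two, Fin.sum_univ_four, z0_32] using (ent h01 1 2).symm
  have f0 : g0 = 0 := by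
    ext i j
    fin_cases i <;> fin_cases j
    exacts [z0_00, z0_01, z0_02, z0_03, z0_10, z0_11, z0_12, z0_13,
      z0_20, z0_21, z0_22, z0_23, z0_30, z0_31, z0_32, z0_33]
  have f1 : g1 = 0 := by
    ext i j
    fin_cases i <;> fin_cases j
    exacts [z1_00, z1_01, z1_10, z1_11]
  have f2 : g2 = 0 := by
    ext i j
    fin_cases i <;> fin_cases j
    exacts [z2_00, z2_01, z2_02, z2_10, z2_11, z2_12, z2_20, z2_21,
      z2_22]
  have f3 : g3 = 0 := by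
    ext i j
    fin_cases i <;> fin_cases j
    exacts [z3_00, z3_01, z3_10, z3_11]
  have f4 : g4 = 0 := by
    ext i j
    fin_cases i; fin_cases j; exact z4_00
  have f5 : g5 = 0 := by
    ext i j
    fin_cases i <;> fin_cases j
    exacts [z5_00, z5_01, z5_02, z5_10, z5_11, z5_12, z5_20, z5_21,
      z5_22]
  have f6 : g6 = 0 := by
    ext i j
    fin_cases i <;> fin_cases j
    exacts [z6_00, z6_01, z6_10, z6_11]
  have f7 : g7 = 0 := by
    ext i j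
    fin_cases i; fin_cases j; exact z7_00
  exact ⟨f0, f1, f2, f3, f4, f5, f6, f7⟩

/-- A representation of `Ẽ₇` of dimension `J`. -/
def e7W0 : ∀ x y : Fin 8, ℕ → Matrix (Fin (JE7 y)) (Fin (JE7 x)) ℂ
  | 0, 1, _ => (!![0, 1, 0, 0; 0, 0, 0, 1] : Matrix (Fin 2) (Fin 4) ℂ)
  | 0, 2, _ => (!![1, 0, 0, 0; 0, 0, 1, 0; 0, 0, 0, 1] : Matrix (Fin 3) (Fin 4) ℂ)
  | 3, 2, _ => (!![0, 0; 1, 0; 0, 1] : Matrix (Fin 3) (Fin 2) ℂ)
  | 3, 4, _ => (!![0, 1] : Matrix (Fin 1) (Fin 2) ℂ)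
  | 0, 5, _ => (!![1, 0, 0, 0; 0, 1, 0, 0; 0, 0, 1, 0] : Matrix (Fin 3) (Fin 4) ℂ)
  | 6, 5, _ => (!![1, 0; 0, 1; 0, 0] : Matrix (Fin 3) (Fin 2) ℂ)
  | 6, 7, _ => (!![0, 1] : Matrix (Fin 1) (Fin 2) ℂ)
  | _, _, _ => 0

/-- A representation of `Ẽ₇` of dimension `J`. -/
def e7W1 : ∀ x y : Fin 8, ℕ → Matrix (Fin (JE7 y)) (Fin (JE7 x)) ℂ
  | 0, 1, _ => (!![1, 0, 0, 0; 0, 0, 1, 0] : Matrix (Fin 2) (Fin 4) ℂ)
  | 0, 2, _ => (!![0, 1, 0, 0; 0, 0, 1, 0; 0, 0, 0, 1] : Matrix (Fin 3) (Fin 4) ℂ)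
  | 3, 2, _ => (!![0, 0; 1, 0; 0, 1] : Matrix (Fin 3) (Fin 2) ℂ)
  | 3, 4, _ => (!![0, 1] : Matrix (Fin 1) (Fin 2) ℂ)
  | 0, 5, _ => (!![1, 1, 0, 0; 0, 0, 1, 0; 0, 0, 0, 1] : Matrix (Fin 3) (Fin 4) ℂ)
  | 6, 5, _ => (!![0, 0; 1, 0; 0, 1] : Matrix (Fin 3) (Fin 2) ℂ)
  | 6, 7, _ => (!![0, 1] : Matrix (Fin 1) (Fin 2) ℂ)
  | _, _, _ => 0

/-- The colouring with sources `true`. -/
def e7Col : Fin 8 → Bool := ![true, false, false, true, false, false, true, false]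

theorem e7_hom01 : Hom0 adjE7 JE7 e7Col e7W0 e7W1 := by
  intro γ hγ
  have h := e7_01 (γ 0) (γ 1) (γ 2) (γ 3) (γ 4) (γ 5) (γ 6) (γ 7)
    (hγ 0 1 0 rfl rfl (by decide))
    (hγ 0 2 0 rfl rfl (by decide))
    (hγ 3 2 0 rfl rfl (by decide))
    (hγ 3 4 0 rfl rfl (by decide))
    (hγ 0 5 0 rfl rfl (by decide))
    (hγ 6 5 0 rfl rfl (by decide))
    (hγ 6 7 0 rfl rfl (by decide))
  obtain ⟨h0, h1, h2, h3, h4, h5, h6, h7⟩ := h
  intro v
  fin_cases v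
  exacts [h0, h1, h2, h3, h4, h5, h6, h7]

theorem e7_hom10 : Hom0 adjE7 JE7 e7Col e7W1 e7W0 := by
  intro γ hγ
  have h := e7_10 (γ 0) (γ 1) (γ 2) (γ 3) (γ 4) (γ 5) (γ 6) (γ 7)
    (hγ 0 1 0 rfl rfl (by decide))
    (hγ 0 2 0 rfl rfl (by decide))
    (hγ 3 2 0 rfl rfl (by decide))
    (hγ 3 4 0 rfl rfl (by decide))
    (hγ 0 5 0 rfl rfl (by decide))
    (hγ 6 5 0 rfl rfl (by decide))
    (hγ 6 7 0 rfl rfl (by decide))
  obtain ⟨h0, h1, h2, h3, h4, h5, h6, h7⟩ := h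
  intro v
  fin_cases v
  exacts [h0, h1, h2, h3, h4, h5, h6, h7]

theorem e7_col (c : Fin 8 → Bool) (hc : ∀ x y, adjE7 x y ≠ 0 → c x ≠ c y) :
    c = e7Col ∨ c = fun v => !(e7Col v) := by
  have e1 : c 1 = !(c 0) := Bool.eq_not_of_ne (hc 1 0 (by decide))
  have e2 : c 2 = !(c 0) := Bool.eq_not_of_ne (hc 2 0 (by decide))
  have e3 : c 3 = !(c 2) := Bool.eq_not_of_ne (hc 3 2 (by decide))
  have e4 : c 4 = !(c 3) := Bool.eq_not_of_ne (hc 4 3 (by decide))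
  have e5 : c 5 = !(c 0) := Bool.eq_not_of_ne (hc 5 0 (by decide))
  have e6 : c 6 = !(c 5) := Bool.eq_not_of_ne (hc 6 5 (by decide))
  have e7 : c 7 = !(c 6) := Bool.eq_not_of_ne (hc 7 6 (by decide))
  cases h0 : c 0
  · right
    funext v
    fin_cases v <;> simp [e7Col, e1, e2, e3, e4, e5, e6, e7, h0]
  · left
    funext v
    fin_cases v <;> simp [e7Col, e1, e2, e3, e4, e5, e6, e7, h0]

theorem e7_symm (x y : Fin 8) : adjE7 x y = adjE7 y x := by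
  unfold adjE7 edges
  exact Nat.add_comm _ _

theorem e7_pairs : HasPairs adjE7 JE7 :=
  HasPairs.of_unique e7_symm e7Col e7_col e7W0 e7W1 e7_hom01 e7_hom10

theorem e7_balance (x : Fin 8) : ∑ y, adjE7 x y * JE7 y = 2 * JE7 x := by
  fin_cases x <;> decide

end Pool.Agent.KS6_42.MS
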