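import Pool.Agent.KS6_42.MS.Vert
import Pool.Agent.KS6_42.MS.Defs
import Pool.Agent.KS6_42.MS.Ent

/-!
# Orthogonal representations of dimension `J` for `Ẽ₈`

Generated by a script: each entry of a homomorphism is shown to be zero by one of the equations.
-/

set_option autoImplicit false

open Matrix

namespace Pool.Agent.KS6_42.MS

/-- There is no nonzero homomorphism from `W0` to `W1`. -/
theorem e8_01
    (g0 : Matrix (Fin 6) (Fin 6) ℂ)
    (g1 : Matrix (Fin 3) (Fin 3) ℂ)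
    (g2 : Matrix (Fin 4) (Fin 4) ℂ)
    (g3 : Matrix (Fin 2) (Fin 2) ℂ)
    (g4 : Matrix (Fin 5) (Fin 5) ℂ)
    (g5 : Matrix (Fin 4) (Fin 4) ℂ)
    (g6 : Matrix (Fin 3) (Fin 3) ℂ)
    (g7 : Matrix (Fin 2) (Fin 2) ℂ)
    (g8 : Matrix (Fin 1) (Fin 1) ℂ)
    (h01 : (!![1, 0, 0, 0, 0, 0; 0, 0, 1, 0, 0, 0; 0, 0, 0, 0, 1, 0] : Matrix (Fin 3) (Fin 6) ℂ) * g0 =
      g1 * (!![1, 0, 0, 0, 0, 0; 0, 0, 1, 0, 0, 0; 0, 0, 0, 0, 1, 0] : Matrix (Fin 3) (Fin 6) ℂ))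
    (h02 : (!![0, 1, 0, 0, 0, 0; 0, 0, 0, 1, 0, 0; 0, 0, 0, 0, 1, 0; 0, 0, 0, 0, 0, 1] : Matrix (Fin 4) (Fin 6) ℂ) * g0 =
      g2 * (!![0, 1, 0, 0, 0, 0; 0, 0, 1, 0, 0, 0; 0, 0, 0, 1, 0, 0; 0, 0, 0, 0, 0, 1] : Matrix (Fin 4) (Fin 6) ℂ))
    (h32 : (!![0, 0; 1, 0; 0, 1; 0, 1] : Matrix (Fin 4) (Fin 2) ℂ) * g3 =
      g2 * (!![0, 0; 1, 0; 0, 0; 0, 1] : Matrix (Fin 4) (Fin 2) ℂ))
    (h04 : (!![1, 0, 0, 0, 0, 0; 0, 1, 0, 0, 0, 0; 0, 0, 1, 0, 0, 0; 0, 0, 0, 1, 0, 0; 0, 0, 0, 0, 0, 1] : Matrix (Fin 5) (Fin 6) ℂ) * g0 =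
      g4 * (!![1, 1, 0, 0, 0, 0; 0, 0, 1, 0, 0, 0; 0, 0, 0, 1, 0, 0; 0, 0, 0, 0, 1, 0; 0, 0, 0, 0, 0, 1] : Matrix (Fin 5) (Fin 6) ℂ))
    (h54 : (!![1, 0, 0, 0; 0, 1, 0, 0; 0, 0, 1, 0; 0, 0, 1, 0; 0, 0, 0, 1] : Matrix (Fin 5) (Fin 4) ℂ) * g5 =
      g4 * (!![0, 0, 0, 0; 1, 0, 0, 0; 0, 1, 0, 0; 0, 0, 1, 0; 0, 0, 0, 1] : Matrix (Fin 5) (Fin 4) ℂ))
    (h56 : (!![1, 1, 0, 0; 0, 0, 1, 0; 0, 0, 0, 1] : Matrix (Fin 3) (Fin 4) ℂ) * g5 =
      g6 * (!![0, 1, 0, 0; 0, 0, 1, 0; 0, 0, 0, 1] : Matrix (Fin 3) (Fin 4) ℂ))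
    (h76 : (!![0, 0; 1, 0; 0, 1] : Matrix (Fin 3) (Fin 2) ℂ) * g7 =
      g6 * (!![1, 0; 0, 1; 0, 0] : Matrix (Fin 3) (Fin 2) ℂ))
    (h78 : (!![0, 1] : Matrix (Fin 1) (Fin 2) ℂ) * g7 =
      g8 * (!![0, 1] : Matrix (Fin 1) (Fin 2) ℂ))
    : g0 = 0 ∧ g1 = 0 ∧ g2 = 0 ∧ g3 = 0 ∧ g4 = 0 ∧ g5 = 0 ∧ g6 = 0 ∧ g7 = 0 ∧ g8 = 0 := by
  have z0_01 : g0 0 1 = 0 := by
    simpa [Fin.sum_univ_three, Fin.sum_univ_six] using ent h01 0 1
  have z0_03 : g0 0 3 = 0 := by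
    simpa [Fin.sum_univ_three, Fin.sum_univ_six] using ent h01 0 3
  have z0_05 : g0 0 5 = 0 := by
    simpa [Fin.sum_univ_three, Fin.sum_univ_six] using ent h01 0 5
  have z0_21 : g0 2 1 = 0 := by
    simpa [Fin.sum_univ_three, Fin.sum_univ_six] using ent h01 1 1
  have z0_23 : g0 2 3 = 0 := by
    simpa [Fin.sum_univ_three, Fin.sum_univ_six] using ent h01 1 3
  have z0_25 : g0 2 5 = 0 := by
    simpa [Fin.sum_univ_three, Fin.sum_univ_six] using ent h01 1 5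
  have z0_41 : g0 4 1 = 0 := by
    simpa [Fin.sum_univ_three, Fin.sum_univ_six] using ent h01 2 1
  have z0_43 : g0 4 3 = 0 := by
    simpa [Fin.sum_univ_three, Fin.sum_univ_six] using ent h01 2 3
  have z0_45 : g0 4 5 = 0 := by
    simpa [Fin.sum_univ_three, Fin.sum_univ_six] using ent h01 2 5
  have z0_10 : g0 1 0 = 0 := by
    simpa [Fin.sum_univ_four, Fin.sum_univ_six] using ent h02 0 0
  have z0_14 : g0 1 4 = 0 := by
    simpa [Fin.sum_univ_four, Fin.sum_univ_six] using ent h02 0 4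
  have z0_30 : g0 3 0 = 0 := by
    simpa [Fin.sum_univ_four, Fin.sum_univ_six] using ent h02 1 0
  have z0_34 : g0 3 4 = 0 := by
    simpa [Fin.sum_univ_four, Fin.sum_univ_six] using ent h02 1 4
  have z0_40 : g0 4 0 = 0 := by
    simpa [Fin.sum_univ_four, Fin.sum_univ_six] using ent h02 2 0
  have z2_20 : g2 2 0 = 0 := by
    simpa [Fin.sum_univ_four, Fin.sum_univ_six, z0_41] using (ent h02 2 1).symm
  have z2_22 : g2 2 2 = 0 := by
    simpa [Fin.sum_univ_four, Fin.sum_univ_six, z0_43] using (ent h02 2 3).symm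
  have z0_44 : g0 4 4 = 0 := by
    simpa [Fin.sum_univ_four, Fin.sum_univ_six] using ent h02 2 4
  have z2_23 : g2 2 3 = 0 := by
    simpa [Fin.sum_univ_four, Fin.sum_univ_six, z0_45] using (ent h02 2 5).symm
  have z0_50 : g0 5 0 = 0 := by
    simpa [Fin.sum_univ_four, Fin.sum_univ_six] using ent h02 3 0
  have z0_54 : g0 5 4 = 0 := by
    simpa [Fin.sum_univ_four, Fin.sum_univ_six] using ent h02 3 4
  have z2_01 : g2 0 1 = 0 := by
    simpa [Fin.sum_univ_two, Fin.sum_univ_four] using (ent h32 0 0).symm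
  have z2_03 : g2 0 3 = 0 := by
    simpa [Fin.sum_univ_two, Fin.sum_univ_four] using (ent h32 0 1).symm
  have z3_11 : g3 1 1 = 0 := by
    simpa [Fin.sum_univ_two, Fin.sum_univ_four, z2_23] using ent h32 2 1
  have z2_33 : g2 3 3 = 0 := by
    simpa [Fin.sum_univ_two, Fin.sum_univ_four, z3_11] using (ent h32 3 1).symm
  have z4_00 : g4 0 0 = 0 := by
    simpa [Fin.sum_univ_five, Fin.sum_univ_six, z0_01] using (ent h04 0 1).symm
  have z4_02 : g4 0 2 = 0 := by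
    simpa [Fin.sum_univ_five, Fin.sum_univ_six, z0_03] using (ent h04 0 3).symm
  have z4_04 : g4 0 4 = 0 := by
    simpa [Fin.sum_univ_five, Fin.sum_univ_six, z0_05] using (ent h04 0 5).symm
  have z4_10 : g4 1 0 = 0 := by
    simpa [Fin.sum_univ_five, Fin.sum_univ_six, z0_10] using (ent h04 1 0).symm
  have z0_11 : g0 1 1 = 0 := by
    simpa [Fin.sum_univ_five, Fin.sum_univ_six, z4_10] using ent h04 1 1
  have z4_13 : g4 1 3 = 0 := by
    simpa [Fin.sum_univ_five, Fin.sum_univ_six, z0_14] using (ent h04 1 4).symm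
  have z4_20 : g4 2 0 = 0 := by
    simpa [Fin.sum_univ_five, Fin.sum_univ_six, z0_21] using (ent h04 2 1).symm
  have z4_22 : g4 2 2 = 0 := by
    simpa [Fin.sum_univ_five, Fin.sum_univ_six, z0_23] using (ent h04 2 3).symm
  have z4_24 : g4 2 4 = 0 := by
    simpa [Fin.sum_univ_five, Fin.sum_univ_six, z0_25] using (ent h04 2 5).symm
  have z4_30 : g4 3 0 = 0 := by
    simpa [Fin.sum_univ_five, Fin.sum_univ_six, z0_30] using (ent h04 3 0).symm
  have z0_31 : g0 3 1 = 0 := by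
    simpa [Fin.sum_univ_five, Fin.sum_univ_six, z4_30] using ent h04 3 1
  have z4_33 : g4 3 3 = 0 := by
    simpa [Fin.sum_univ_five, Fin.sum_univ_six, z0_34] using (ent h04 3 4).symm
  have z4_40 : g4 4 0 = 0 := by
    simpa [Fin.sum_univ_five, Fin.sum_univ_six, z0_50] using (ent h04 4 0).symm
  have z0_51 : g0 5 1 = 0 := by
    simpa [Fin.sum_univ_five, Fin.sum_univ_six, z4_40] using ent h04 4 1
  have z4_43 : g4 4 3 = 0 := by
    simpa [Fin.sum_univ_five, Fin.sum_univ_six, z0_54] using (ent h04 4 4).symm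
  have z5_01 : g5 0 1 = 0 := by
    simpa [Fin.sum_univ_four, Fin.sum_univ_five, z4_02] using ent h54 0 1
  have z5_03 : g5 0 3 = 0 := by
    simpa [Fin.sum_univ_four, Fin.sum_univ_five, z4_04] using ent h54 0 3
  have z5_12 : g5 1 2 = 0 := by
    simpa [Fin.sum_univ_four, Fin.sum_univ_five, z4_13] using ent h54 1 2
  have z5_21 : g5 2 1 = 0 := by
    simpa [Fin.sum_univ_four, Fin.sum_univ_five, z4_22] using ent h54 2 1
  have z5_23 : g5 2 3 = 0 := by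
    simpa [Fin.sum_univ_four, Fin.sum_univ_five, z4_24] using ent h54 2 3
  have z4_32 : g4 3 2 = 0 := by
    simpa [Fin.sum_univ_four, Fin.sum_univ_five, z5_21] using (ent h54 3 1).symm
  have z5_22 : g5 2 2 = 0 := by
    simpa [Fin.sum_univ_four, Fin.sum_univ_five, z4_33] using ent h54 3 2
  have z4_34 : g4 3 4 = 0 := by
    simpa [Fin.sum_univ_four, Fin.sum_univ_five, z5_23] using (ent h54 3 3).symm
  have z5_32 : g5 3 2 = 0 := by
    simpa [Fin.sum_univ_four, Fin.sum_univ_five, z4_43] using ent h54 4 2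
  have z5_20 : g5 2 0 = 0 := by
    simpa [Fin.sum_univ_three, Fin.sum_univ_four] using ent h56 1 0
  have z6_10 : g6 1 0 = 0 := by
    simpa [Fin.sum_univ_three, Fin.sum_univ_four, z5_21] using (ent h56 1 1).symm
  have z6_11 : g6 1 1 = 0 := by
    simpa [Fin.sum_univ_three, Fin.sum_univ_four, z5_22] using (ent h56 1 2).symm
  have z6_12 : g6 1 2 = 0 := by
    simpa [Fin.sum_univ_three, Fin.sum_univ_four, z5_23] using (ent h56 1 3).symm
  have z5_30 : g5 3 0 = 0 := by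
    simpa [Fin.sum_univ_three, Fin.sum_univ_four] using ent h56 2 0
  have z6_21 : g6 2 1 = 0 := by
    simpa [Fin.sum_univ_three, Fin.sum_univ_four, z5_32] using (ent h56 2 2).symm
  have z6_00 : g6 0 0 = 0 := by
    simpa [Fin.sum_univ_two, Fin.sum_univ_three] using (ent h76 0 0).symm
  have z6_01 : g6 0 1 = 0 := by
    simpa [Fin.sum_univ_two, Fin.sum_univ_three] using (ent h76 0 1).symm
  have z7_00 : g7 0 0 = 0 := by
    simpa [Fin.sum_univ_two, Fin.sum_univ_three, z6_10] using ent h76 1 0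
  have z7_01 : g7 0 1 = 0 := by
    simpa [Fin.sum_univ_two, Fin.sum_univ_three, z6_11] using ent h76 1 1
  have z7_11 : g7 1 1 = 0 := by
    simpa [Fin.sum_univ_two, Fin.sum_univ_three, z6_21] using ent h76 2 1
  have z7_10 : g7 1 0 = 0 := by
    simpa [Fin.sum_univ_one, Fin.sum_univ_two] using ent h78 0 0
  have z8_00 : g8 0 0 = 0 := by
    simpa [Fin.sum_univ_one, Fin.sum_univ_two, z7_11] using (ent h78 0 1).symm
  have z1_20 : g1 2 0 = 0 := by
    simpa [Fin.sum_univ_three, Fin.sum_univ_six, z0_40] using (ent h01 2 0).symm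
  have z1_22 : g1 2 2 = 0 := by
    simpa [Fin.sum_univ_three, Fin.sum_univ_six, z0_44] using (ent h01 2 4).symm
  have z2_00 : g2 0 0 = 0 := by
    simpa [Fin.sum_univ_four, Fin.sum_univ_six, z0_11] using (ent h02 0 1).symm
  have z0_12 : g0 1 2 = 0 := by
    simpa [Fin.sum_univ_four, Fin.sum_univ_six, z2_01] using ent h02 0 2
  have z0_15 : g0 1 5 = 0 := by
    simpa [Fin.sum_univ_four, Fin.sum_univ_six, z2_03] using ent h02 0 5
  have z2_10 : g2 1 0 = 0 := by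
    simpa [Fin.sum_univ_four, Fin.sum_univ_six, z0_31] using (ent h02 1 1).symm
  have z2_30 : g2 3 0 = 0 := by
    simpa [Fin.sum_univ_four, Fin.sum_univ_six, z0_51] using (ent h02 3 1).symm
  have z0_55 : g0 5 5 = 0 := by
    simpa [Fin.sum_univ_four, Fin.sum_univ_six, z2_33] using ent h02 3 5
  have z0_00 : g0 0 0 = 0 := by
    simpa [Fin.sum_univ_five, Fin.sum_univ_six, z4_00] using ent h04 0 0
  have z4_11 : g4 1 1 = 0 := by
    simpa [Fin.sum_univ_five, Fin.sum_univ_six, z0_12] using (ent h04 1 2).symm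
  have z4_14 : g4 1 4 = 0 := by
    simpa [Fin.sum_univ_five, Fin.sum_univ_six, z0_15] using (ent h04 1 5).symm
  have z0_20 : g0 2 0 = 0 := by
    simpa [Fin.sum_univ_five, Fin.sum_univ_six, z4_20] using ent h04 2 0
  have z0_33 : g0 3 3 = 0 := by
    simpa [Fin.sum_univ_five, Fin.sum_univ_six, z4_32] using ent h04 3 3
  have z0_35 : g0 3 5 = 0 := by
    simpa [Fin.sum_univ_five, Fin.sum_univ_six, z4_34] using ent h04 3 5
  have z4_44 : g4 4 4 = 0 := by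
    simpa [Fin.sum_univ_five, Fin.sum_univ_six, z0_55] using (ent h04 4 5).symm
  have z5_10 : g5 1 0 = 0 := by
    simpa [Fin.sum_univ_four, Fin.sum_univ_five, z4_11] using ent h54 1 0
  have z5_13 : g5 1 3 = 0 := by
    simpa [Fin.sum_univ_four, Fin.sum_univ_five, z4_14] using ent h54 1 3
  have z4_21 : g4 2 1 = 0 := by
    simpa [Fin.sum_univ_four, Fin.sum_univ_five, z5_20] using (ent h54 2 0).symm
  have z4_23 : g4 2 3 = 0 := by
    simpa [Fin.sum_univ_four, Fin.sum_univ_five, z5_22] using (ent h54 2 2).symm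
  have z4_31 : g4 3 1 = 0 := by
    simpa [Fin.sum_univ_four, Fin.sum_univ_five, z5_20] using (ent h54 3 0).symm
  have z4_41 : g4 4 1 = 0 := by
    simpa [Fin.sum_univ_four, Fin.sum_univ_five, z5_30] using (ent h54 4 0).symm
  have z5_33 : g5 3 3 = 0 := by
    simpa [Fin.sum_univ_four, Fin.sum_univ_five, z4_44] using ent h54 4 3
  have z5_00 : g5 0 0 = 0 := by
    simpa [Fin.sum_univ_three, Fin.sum_univ_four, z5_10] using ent h56 0 0
  have z5_11 : g5 1 1 = 0 := by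
    simpa [Fin.sum_univ_three, Fin.sum_univ_four, z5_01, z6_00] using ent h56 0 1
  have z5_02 : g5 0 2 = 0 := by
    simpa [Fin.sum_univ_three, Fin.sum_univ_four, z5_12, z6_01] using ent h56 0 2
  have z6_02 : g6 0 2 = 0 := by
    simpa [Fin.sum_univ_three, Fin.sum_univ_four, z5_03, z5_13] using (ent h56 0 3).symm
  have z6_22 : g6 2 2 = 0 := by
    simpa [Fin.sum_univ_three, Fin.sum_univ_four, z5_33] using (ent h56 2 3).symm
  have z6_20 : g6 2 0 = 0 := by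
    simpa [Fin.sum_univ_two, Fin.sum_univ_three, z7_10] using (ent h76 2 0).symm
  have z1_00 : g1 0 0 = 0 := by
    simpa [Fin.sum_univ_three, Fin.sum_univ_six, z0_00] using (ent h01 0 0).symm
  have z1_10 : g1 1 0 = 0 := by
    simpa [Fin.sum_univ_three, Fin.sum_univ_six, z0_20] using (ent h01 1 0).symm
  have z2_12 : g2 1 2 = 0 := by
    simpa [Fin.sum_univ_four, Fin.sum_univ_six, z0_33] using (ent h02 1 3).symm
  have z2_13 : g2 1 3 = 0 := by
    simpa [Fin.sum_univ_four, Fin.sum_univ_six, z0_35] using (ent h02 1 5).symm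
  have z3_01 : g3 0 1 = 0 := by
    simpa [Fin.sum_univ_two, Fin.sum_univ_four, z2_13] using ent h32 1 1
  have z0_22 : g0 2 2 = 0 := by
    simpa [Fin.sum_univ_five, Fin.sum_univ_six, z4_21] using ent h04 2 2
  have z0_24 : g0 2 4 = 0 := by
    simpa [Fin.sum_univ_five, Fin.sum_univ_six, z4_23] using ent h04 2 4
  have z0_32 : g0 3 2 = 0 := by
    simpa [Fin.sum_univ_five, Fin.sum_univ_six, z4_31] using ent h04 3 2
  have z0_52 : g0 5 2 = 0 := by
    simpa [Fin.sum_univ_five, Fin.sum_univ_six, z4_41] using ent h04 4 2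
  have z4_01 : g4 0 1 = 0 := by
    simpa [Fin.sum_univ_four, Fin.sum_univ_five, z5_00] using (ent h54 0 0).symm
  have z4_03 : g4 0 3 = 0 := by
    simpa [Fin.sum_univ_four, Fin.sum_univ_five, z5_02] using (ent h54 0 2).symm
  have z4_12 : g4 1 2 = 0 := by
    simpa [Fin.sum_univ_four, Fin.sum_univ_five, z5_11] using (ent h54 1 1).symm
  have z5_31 : g5 3 1 = 0 := by
    simpa [Fin.sum_univ_three, Fin.sum_univ_four, z6_20] using ent h56 2 1
  have z1_11 : g1 1 1 = 0 := by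
    simpa [Fin.sum_univ_three, Fin.sum_univ_six, z0_22] using (ent h01 1 2).symm
  have z1_12 : g1 1 2 = 0 := by
    simpa [Fin.sum_univ_three, Fin.sum_univ_six, z0_24] using (ent h01 1 4).symm
  have z2_11 : g2 1 1 = 0 := by
    simpa [Fin.sum_univ_four, Fin.sum_univ_six, z0_32] using (ent h02 1 2).symm
  have z2_31 : g2 3 1 = 0 := by
    simpa [Fin.sum_univ_four, Fin.sum_univ_six, z0_52] using (ent h02 3 2).symm
  have z3_00 : g3 0 0 = 0 := by
    simpa [Fin.sum_univ_two, Fin.sum_univ_four, z2_11] using ent h32 1 0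
  have z3_10 : g3 1 0 = 0 := by
    simpa [Fin.sum_univ_two, Fin.sum_univ_four, z2_31] using ent h32 3 0
  have z0_02 : g0 0 2 = 0 := by
    simpa [Fin.sum_univ_five, Fin.sum_univ_six, z4_01] using ent h04 0 2
  have z0_04 : g0 0 4 = 0 := by
    simpa [Fin.sum_univ_five, Fin.sum_univ_six, z4_03] using ent h04 0 4
  have z0_13 : g0 1 3 = 0 := by
    simpa [Fin.sum_univ_five, Fin.sum_univ_six, z4_12] using ent h04 1 3
  have z4_42 : g4 4 2 = 0 := by
    simpa [Fin.sum_univ_four, Fin.sum_univ_five, z5_31] using (ent h54 4 1).symm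
  have z1_01 : g1 0 1 = 0 := by
    simpa [Fin.sum_univ_three, Fin.sum_univ_six, z0_02] using (ent h01 0 2).symm
  have z1_02 : g1 0 2 = 0 := by
    simpa [Fin.sum_univ_three, Fin.sum_univ_six, z0_04] using (ent h01 0 4).symm
  have z2_02 : g2 0 2 = 0 := by
    simpa [Fin.sum_univ_four, Fin.sum_univ_six, z0_13] using (ent h02 0 3).symm
  have z2_21 : g2 2 1 = 0 := by
    simpa [Fin.sum_univ_two, Fin.sum_univ_four, z3_10] using (ent h32 2 0).symm
  have z0_53 : g0 5 3 = 0 := by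
    simpa [Fin.sum_univ_five, Fin.sum_univ_six, z4_42] using ent h04 4 3
  have z0_42 : g0 4 2 = 0 := by
    simpa [Fin.sum_univ_four, Fin.sum_univ_six, z2_21] using ent h02 2 2
  have z2_32 : g2 3 2 = 0 := by
    simpa [Fin.sum_univ_four, Fin.sum_univ_six, z0_53] using (ent h02 3 3).symm
  have z1_21 : g1 2 1 = 0 := by
    simpa [Fin.sum_univ_three, Fin.sum_univ_six, z0_42] using (ent h01 2 2).symm
  have f0 : g0 = 0 := by
    ext i j
    fin_cases i <;> fin_cases j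
    exacts [z0_00, z0_01, z0_02, z0_03, z0_04, z0_05, z0_10, z0_11,
      z0_12, z0_13, z0_14, z0_15, z0_20, z0_21, z0_22, z0_23,
      z0_24, z0_25, z0_30, z0_31, z0_32, z0_33, z0_34, z0_35,
      z0_40, z0_41, z0_42, z0_43, z0_44, z0_45, z0_50, z0_51,
      z0_52, z0_53, z0_54, z0_55]
  have f1 : g1 = 0 := by
    ext i j
    fin_cases i <;> fin_cases j
    exacts [z1_00, z1_01, z1_02, z1_10, z1_11, z1_12, z1_20, z1_21,
      z1_22]
  have f2 : g2 = 0 := by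
    ext i j
    fin_cases i <;> fin_cases j
    exacts [z2_00, z2_01, z2_02, z2_03, z2_10, z2_11, z2_12, z2_13,
      z2_20, z2_21, z2_22, z2_23, z2_30, z2_31, z2_32, z2_33]
  have f3 : g3 = 0 := by
    ext i j
    fin_cases i <;> fin_cases j
    exacts [z3_00, z3_01, z3_10, z3_11]
  have f4 : g4 = 0 := by
    ext i j
    fin_cases i <;> fin_cases j
    exacts [z4_00, z4_01, z4_02, z4_03, z4_04, z4_10, z4_11, z4_12,
      z4_13, z4_14, z4_20, z4_21, z4_22, z4_23, z4_24, z4_30,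
      z4_31, z4_32, z4_33, z4_34, z4_40, z4_41, z4_42, z4_43,
      z4_44]
  have f5 : g5 = 0 := by
    ext i j
    fin_cases i <;> fin_cases j
    exacts [z5_00, z5_01, z5_02, z5_03, z5_10, z5_11, z5_12, z5_13,
      z5_20, z5_21, z5_22, z5_23, z5_30, z5_31, z5_32, z5_33]
  have f6 : g6 = 0 := by
    ext i j
    fin_cases i <;> fin_cases j
    exacts [z6_00, z6_01, z6_02, z6_10, z6_11, z6_12, z6_20, z6_21,
      z6_22]
  have f7 : g7 = 0 := by
    ext i j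
    fin_cases i <;> fin_cases j
    exacts [z7_00, z7_01, z7_10, z7_11]
  have f8 : g8 = 0 := by
    ext i j
    fin_cases i; fin_cases j; exact z8_00
  exact ⟨f0, f1, f2, f3, f4, f5, f6, f7, f8⟩

/-- There is no nonzero homomorphism from `W1` to `W0`. -/
theorem e8_10
    (g0 : Matrix (Fin 6) (Fin 6) ℂ)
    (g1 : Matrix (Fin 3) (Fin 3) ℂ)
    (g2 : Matrix (Fin 4) (Fin 4) ℂ)
    (g3 : Matrix (Fin 2) (Fin 2) ℂ)
    (g4 : Matrix (Fin 5) (Fin 5) ℂ)
    (g5 : Matrix (Fin 4) (Fin 4) ℂ)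
    (g6 : Matrix (Fin 3) (Fin 3) ℂ)
    (g7 : Matrix (Fin 2) (Fin 2) ℂ)
    (g8 : Matrix (Fin 1) (Fin 1) ℂ)
    (h01 : (!![1, 0, 0, 0, 0, 0; 0, 0, 1, 0, 0, 0; 0, 0, 0, 0, 1, 0] : Matrix (Fin 3) (Fin 6) ℂ) * g0 =
      g1 * (!![1, 0, 0, 0, 0, 0; 0, 0, 1, 0, 0, 0; 0, 0, 0, 0, 1, 0] : Matrix (Fin 3) (Fin 6) ℂ))
    (h02 : (!![0, 1, 0, 0, 0, 0; 0, 0, 1, 0, 0, 0; 0, 0, 0, 1, 0, 0; 0, 0, 0, 0, 0, 1] : Matrix (Fin 4) (Fin 6) ℂ) * g0 =
      g2 * (!![0, 1, 0, 0, 0, 0; 0, 0, 0, 1, 0, 0; 0, 0, 0, 0, 1, 0; 0, 0, 0, 0, 0, 1] : Matrix (Fin 4) (Fin 6) ℂ))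
    (h32 : (!![0, 0; 1, 0; 0, 0; 0, 1] : Matrix (Fin 4) (Fin 2) ℂ) * g3 =
      g2 * (!![0, 0; 1, 0; 0, 1; 0, 1] : Matrix (Fin 4) (Fin 2) ℂ))
    (h04 : (!![1, 1, 0, 0, 0, 0; 0, 0, 1, 0, 0, 0; 0, 0, 0, 1, 0, 0; 0, 0, 0, 0, 1, 0; 0, 0, 0, 0, 0, 1] : Matrix (Fin 5) (Fin 6) ℂ) * g0 =
      g4 * (!![1, 0, 0, 0, 0, 0; 0, 1, 0, 0, 0, 0; 0, 0, 1, 0, 0, 0; 0, 0, 0, 1, 0, 0; 0, 0, 0, 0, 0, 1] : Matrix (Fin 5) (Fin 6) ℂ))
    (h54 : (!![0, 0, 0, 0; 1, 0, 0, 0; 0, 1, 0, 0; 0, 0, 1, 0; 0, 0, 0, 1] : Matrix (Fin 5) (Fin 4) ℂ) * g5 =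
      g4 * (!![1, 0, 0, 0; 0, 1, 0, 0; 0, 0, 1, 0; 0, 0, 1, 0; 0, 0, 0, 1] : Matrix (Fin 5) (Fin 4) ℂ))
    (h56 : (!![0, 1, 0, 0; 0, 0, 1, 0; 0, 0, 0, 1] : Matrix (Fin 3) (Fin 4) ℂ) * g5 =
      g6 * (!![1, 1, 0, 0; 0, 0, 1, 0; 0, 0, 0, 1] : Matrix (Fin 3) (Fin 4) ℂ))
    (h76 : (!![1, 0; 0, 1; 0, 0] : Matrix (Fin 3) (Fin 2) ℂ) * g7 =
      g6 * (!![0, 0; 1, 0; 0, 1] : Matrix (Fin 3) (Fin 2) ℂ))
    (h78 : (!![0, 1] : Matrix (Fin 1) (Fin 2) ℂ) * g7 =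
      g8 * (!![0, 1] : Matrix (Fin 1) (Fin 2) ℂ))
    : g0 = 0 ∧ g1 = 0 ∧ g2 = 0 ∧ g3 = 0 ∧ g4 = 0 ∧ g5 = 0 ∧ g6 = 0 ∧ g7 = 0 ∧ g8 = 0 := by
  have z0_01 : g0 0 1 = 0 := by
    simpa [Fin.sum_univ_three, Fin.sum_univ_six] using ent h01 0 1
  have z0_03 : g0 0 3 = 0 := by
    simpa [Fin.sum_univ_three, Fin.sum_univ_six] using ent h01 0 3
  have z0_05 : g0 0 5 = 0 := by
    simpa [Fin.sum_univ_three, Fin.sum_univ_six] using ent h01 0 5
  have z0_21 : g0 2 1 = 0 := by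
    simpa [Fin.sum_univ_three, Fin.sum_univ_six] using ent h01 1 1
  have z0_23 : g0 2 3 = 0 := by
    simpa [Fin.sum_univ_three, Fin.sum_univ_six] using ent h01 1 3
  have z0_25 : g0 2 5 = 0 := by
    simpa [Fin.sum_univ_three, Fin.sum_univ_six] using ent h01 1 5
  have z0_41 : g0 4 1 = 0 := by
    simpa [Fin.sum_univ_three, Fin.sum_univ_six] using ent h01 2 1
  have z0_43 : g0 4 3 = 0 := by
    simpa [Fin.sum_univ_three, Fin.sum_univ_six] using ent h01 2 3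
  have z0_45 : g0 4 5 = 0 := by
    simpa [Fin.sum_univ_three, Fin.sum_univ_six] using ent h01 2 5
  have z0_10 : g0 1 0 = 0 := by
    simpa [Fin.sum_univ_four, Fin.sum_univ_six] using ent h02 0 0
  have z0_12 : g0 1 2 = 0 := by
    simpa [Fin.sum_univ_four, Fin.sum_univ_six] using ent h02 0 2
  have z0_20 : g0 2 0 = 0 := by
    simpa [Fin.sum_univ_four, Fin.sum_univ_six] using ent h02 1 0
  have z2_10 : g2 1 0 = 0 := by
    simpa [Fin.sum_univ_four, Fin.sum_univ_six, z0_21] using (ent h02 1 1).symm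
  have z0_22 : g0 2 2 = 0 := by
    simpa [Fin.sum_univ_four, Fin.sum_univ_six] using ent h02 1 2
  have z2_11 : g2 1 1 = 0 := by
    simpa [Fin.sum_univ_four, Fin.sum_univ_six, z0_23] using (ent h02 1 3).symm
  have z2_13 : g2 1 3 = 0 := by
    simpa [Fin.sum_univ_four, Fin.sum_univ_six, z0_25] using (ent h02 1 5).symm
  have z0_30 : g0 3 0 = 0 := by
    simpa [Fin.sum_univ_four, Fin.sum_univ_six] using ent h02 2 0
  have z0_32 : g0 3 2 = 0 := by
    simpa [Fin.sum_univ_four, Fin.sum_univ_six] using ent h02 2 2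
  have z0_50 : g0 5 0 = 0 := by
    simpa [Fin.sum_univ_four, Fin.sum_univ_six] using ent h02 3 0
  have z0_52 : g0 5 2 = 0 := by
    simpa [Fin.sum_univ_four, Fin.sum_univ_six] using ent h02 3 2
  have z2_01 : g2 0 1 = 0 := by
    simpa [Fin.sum_univ_two, Fin.sum_univ_four] using (ent h32 0 0).symm
  have z3_00 : g3 0 0 = 0 := by
    simpa [Fin.sum_univ_two, Fin.sum_univ_four, z2_11] using ent h32 1 0
  have z2_21 : g2 2 1 = 0 := by
    simpa [Fin.sum_univ_two, Fin.sum_univ_four] using (ent h32 2 0).symm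
  have z4_10 : g4 1 0 = 0 := by
    simpa [Fin.sum_univ_five, Fin.sum_univ_six, z0_20] using (ent h04 1 0).symm
  have z4_11 : g4 1 1 = 0 := by
    simpa [Fin.sum_univ_five, Fin.sum_univ_six, z0_21] using (ent h04 1 1).symm
  have z4_12 : g4 1 2 = 0 := by
    simpa [Fin.sum_univ_five, Fin.sum_univ_six, z0_22] using (ent h04 1 2).symm
  have z4_13 : g4 1 3 = 0 := by
    simpa [Fin.sum_univ_five, Fin.sum_univ_six, z0_23] using (ent h04 1 3).symm
  have z0_24 : g0 2 4 = 0 := by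
    simpa [Fin.sum_univ_five, Fin.sum_univ_six] using ent h04 1 4
  have z4_14 : g4 1 4 = 0 := by
    simpa [Fin.sum_univ_five, Fin.sum_univ_six, z0_25] using (ent h04 1 5).symm
  have z4_20 : g4 2 0 = 0 := by
    simpa [Fin.sum_univ_five, Fin.sum_univ_six, z0_30] using (ent h04 2 0).symm
  have z4_22 : g4 2 2 = 0 := by
    simpa [Fin.sum_univ_five, Fin.sum_univ_six, z0_32] using (ent h04 2 2).symm
  have z0_34 : g0 3 4 = 0 := by
    simpa [Fin.sum_univ_five, Fin.sum_univ_six] using ent h04 2 4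
  have z4_31 : g4 3 1 = 0 := by
    simpa [Fin.sum_univ_five, Fin.sum_univ_six, z0_41] using (ent h04 3 1).symm
  have z4_33 : g4 3 3 = 0 := by
    simpa [Fin.sum_univ_five, Fin.sum_univ_six, z0_43] using (ent h04 3 3).symm
  have z0_44 : g0 4 4 = 0 := by
    simpa [Fin.sum_univ_five, Fin.sum_univ_six] using ent h04 3 4
  have z4_34 : g4 3 4 = 0 := by
    simpa [Fin.sum_univ_five, Fin.sum_univ_six, z0_45] using (ent h04 3 5).symm
  have z4_40 : g4 4 0 = 0 := by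
    simpa [Fin.sum_univ_five, Fin.sum_univ_six, z0_50] using (ent h04 4 0).symm
  have z4_42 : g4 4 2 = 0 := by
    simpa [Fin.sum_univ_five, Fin.sum_univ_six, z0_52] using (ent h04 4 2).symm
  have z0_54 : g0 5 4 = 0 := by
    simpa [Fin.sum_univ_five, Fin.sum_univ_six] using ent h04 4 4
  have z4_00 : g4 0 0 = 0 := by
    simpa [Fin.sum_univ_four, Fin.sum_univ_five] using (ent h54 0 0).symm
  have z4_01 : g4 0 1 = 0 := by
    simpa [Fin.sum_univ_four, Fin.sum_univ_five] using (ent h54 0 1).symm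
  have z4_04 : g4 0 4 = 0 := by
    simpa [Fin.sum_univ_four, Fin.sum_univ_five] using (ent h54 0 3).symm
  have z5_00 : g5 0 0 = 0 := by
    simpa [Fin.sum_univ_four, Fin.sum_univ_five, z4_10] using ent h54 1 0
  have z5_01 : g5 0 1 = 0 := by
    simpa [Fin.sum_univ_four, Fin.sum_univ_five, z4_11] using ent h54 1 1
  have z5_02 : g5 0 2 = 0 := by
    simpa [Fin.sum_univ_four, Fin.sum_univ_five, z4_12, z4_13] using ent h54 1 2
  have z5_03 : g5 0 3 = 0 := by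
    simpa [Fin.sum_univ_four, Fin.sum_univ_five, z4_14] using ent h54 1 3
  have z5_10 : g5 1 0 = 0 := by
    simpa [Fin.sum_univ_four, Fin.sum_univ_five, z4_20] using ent h54 2 0
  have z5_21 : g5 2 1 = 0 := by
    simpa [Fin.sum_univ_four, Fin.sum_univ_five, z4_31] using ent h54 3 1
  have z5_23 : g5 2 3 = 0 := by
    simpa [Fin.sum_univ_four, Fin.sum_univ_five, z4_34] using ent h54 3 3
  have z5_30 : g5 3 0 = 0 := by
    simpa [Fin.sum_univ_four, Fin.sum_univ_five, z4_40] using ent h54 4 0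
  have z6_00 : g6 0 0 = 0 := by
    simpa [Fin.sum_univ_three, Fin.sum_univ_four, z5_10] using (ent h56 0 0).symm
  have z5_11 : g5 1 1 = 0 := by
    simpa [Fin.sum_univ_three, Fin.sum_univ_four, z6_00] using ent h56 0 1
  have z6_10 : g6 1 0 = 0 := by
    simpa [Fin.sum_univ_three, Fin.sum_univ_four, z5_21] using (ent h56 1 1).symm
  have z6_12 : g6 1 2 = 0 := by
    simpa [Fin.sum_univ_three, Fin.sum_univ_four, z5_23] using (ent h56 1 3).symm
  have z6_20 : g6 2 0 = 0 := by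
    simpa [Fin.sum_univ_three, Fin.sum_univ_four, z5_30] using (ent h56 2 0).symm
  have z5_31 : g5 3 1 = 0 := by
    simpa [Fin.sum_univ_three, Fin.sum_univ_four, z6_20] using ent h56 2 1
  have z7_11 : g7 1 1 = 0 := by
    simpa [Fin.sum_univ_two, Fin.sum_univ_three, z6_12] using ent h76 1 1
  have z6_21 : g6 2 1 = 0 := by
    simpa [Fin.sum_univ_two, Fin.sum_univ_three] using (ent h76 2 0).symm
  have z6_22 : g6 2 2 = 0 := by
    simpa [Fin.sum_univ_two, Fin.sum_univ_three] using (ent h76 2 1).symm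
  have z7_10 : g7 1 0 = 0 := by
    simpa [Fin.sum_univ_one, Fin.sum_univ_two] using ent h78 0 0
  have z8_00 : g8 0 0 = 0 := by
    simpa [Fin.sum_univ_one, Fin.sum_univ_two, z7_11] using (ent h78 0 1).symm
  have z1_10 : g1 1 0 = 0 := by
    simpa [Fin.sum_univ_three, Fin.sum_univ_six, z0_20] using (ent h01 1 0).symm
  have z1_11 : g1 1 1 = 0 := by
    simpa [Fin.sum_univ_three, Fin.sum_univ_six, z0_22] using (ent h01 1 2).symm
  have z1_12 : g1 1 2 = 0 := by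
    simpa [Fin.sum_univ_three, Fin.sum_univ_six, z0_24] using (ent h01 1 4).symm
  have z1_22 : g1 2 2 = 0 := by
    simpa [Fin.sum_univ_three, Fin.sum_univ_six, z0_44] using (ent h01 2 4).symm
  have z0_13 : g0 1 3 = 0 := by
    simpa [Fin.sum_univ_four, Fin.sum_univ_six, z2_01] using ent h02 0 3
  have z2_12 : g2 1 2 = 0 := by
    simpa [Fin.sum_univ_four, Fin.sum_univ_six, z0_24] using (ent h02 1 4).symm
  have z0_33 : g0 3 3 = 0 := by
    simpa [Fin.sum_univ_four, Fin.sum_univ_six, z2_21] using ent h02 2 3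
  have z2_22 : g2 2 2 = 0 := by
    simpa [Fin.sum_univ_four, Fin.sum_univ_six, z0_34] using (ent h02 2 4).symm
  have z2_32 : g2 3 2 = 0 := by
    simpa [Fin.sum_univ_four, Fin.sum_univ_six, z0_54] using (ent h02 3 4).symm
  have z3_01 : g3 0 1 = 0 := by
    simpa [Fin.sum_univ_two, Fin.sum_univ_four, z2_12, z2_13] using ent h32 1 1
  have z2_23 : g2 2 3 = 0 := by
    simpa [Fin.sum_univ_two, Fin.sum_univ_four, z2_22] using (ent h32 2 1).symm
  have z0_00 : g0 0 0 = 0 := by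
    simpa [Fin.sum_univ_five, Fin.sum_univ_six, z0_10, z4_00] using ent h04 0 0
  have z0_11 : g0 1 1 = 0 := by
    simpa [Fin.sum_univ_five, Fin.sum_univ_six, z0_01, z4_01] using ent h04 0 1
  have z4_03 : g4 0 3 = 0 := by
    simpa [Fin.sum_univ_five, Fin.sum_univ_six, z0_03, z0_13] using (ent h04 0 3).symm
  have z0_15 : g0 1 5 = 0 := by
    simpa [Fin.sum_univ_five, Fin.sum_univ_six, z0_05, z4_04] using ent h04 0 5
  have z4_23 : g4 2 3 = 0 := by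
    simpa [Fin.sum_univ_five, Fin.sum_univ_six, z0_33] using (ent h04 2 3).symm
  have z4_02 : g4 0 2 = 0 := by
    simpa [Fin.sum_univ_four, Fin.sum_univ_five, z4_03] using (ent h54 0 2).symm
  have z4_21 : g4 2 1 = 0 := by
    simpa [Fin.sum_univ_four, Fin.sum_univ_five, z5_11] using (ent h54 2 1).symm
  have z5_12 : g5 1 2 = 0 := by
    simpa [Fin.sum_univ_four, Fin.sum_univ_five, z4_22, z4_23] using ent h54 2 2
  have z4_41 : g4 4 1 = 0 := by
    simpa [Fin.sum_univ_four, Fin.sum_univ_five, z5_31] using (ent h54 4 1).symm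
  have z6_01 : g6 0 1 = 0 := by
    simpa [Fin.sum_univ_three, Fin.sum_univ_four, z5_12] using (ent h56 0 2).symm
  have z5_20 : g5 2 0 = 0 := by
    simpa [Fin.sum_univ_three, Fin.sum_univ_four, z6_10] using ent h56 1 0
  have z5_32 : g5 3 2 = 0 := by
    simpa [Fin.sum_univ_three, Fin.sum_univ_four, z6_21] using ent h56 2 2
  have z5_33 : g5 3 3 = 0 := by
    simpa [Fin.sum_univ_three, Fin.sum_univ_four, z6_22] using ent h56 2 3
  have z7_00 : g7 0 0 = 0 := by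
    simpa [Fin.sum_univ_two, Fin.sum_univ_three, z6_01] using ent h76 0 0
  have z6_11 : g6 1 1 = 0 := by
    simpa [Fin.sum_univ_two, Fin.sum_univ_three, z7_10] using (ent h76 1 0).symm
  have z1_00 : g1 0 0 = 0 := by
    simpa [Fin.sum_univ_three, Fin.sum_univ_six, z0_00] using (ent h01 0 0).symm
  have z2_00 : g2 0 0 = 0 := by
    simpa [Fin.sum_univ_four, Fin.sum_univ_six, z0_11] using (ent h02 0 1).symm
  have z2_03 : g2 0 3 = 0 := by
    simpa [Fin.sum_univ_four, Fin.sum_univ_six, z0_15] using (ent h02 0 5).symm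
  have z0_35 : g0 3 5 = 0 := by
    simpa [Fin.sum_univ_four, Fin.sum_univ_six, z2_23] using ent h02 2 5
  have z2_02 : g2 0 2 = 0 := by
    simpa [Fin.sum_univ_two, Fin.sum_univ_four, z2_03] using (ent h32 0 1).symm
  have z0_02 : g0 0 2 = 0 := by
    simpa [Fin.sum_univ_five, Fin.sum_univ_six, z0_12, z4_02] using ent h04 0 2
  have z0_31 : g0 3 1 = 0 := by
    simpa [Fin.sum_univ_five, Fin.sum_univ_six, z4_21] using ent h04 2 1
  have z4_24 : g4 2 4 = 0 := by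
    simpa [Fin.sum_univ_five, Fin.sum_univ_six, z0_35] using (ent h04 2 5).symm
  have z0_51 : g0 5 1 = 0 := by
    simpa [Fin.sum_univ_five, Fin.sum_univ_six, z4_41] using ent h04 4 1
  have z5_13 : g5 1 3 = 0 := by
    simpa [Fin.sum_univ_four, Fin.sum_univ_five, z4_24] using ent h54 2 3
  have z4_30 : g4 3 0 = 0 := by
    simpa [Fin.sum_univ_four, Fin.sum_univ_five, z5_20] using (ent h54 3 0).symm
  have z4_43 : g4 4 3 = 0 := by
    simpa [Fin.sum_univ_four, Fin.sum_univ_five, z5_32, z4_42] using (ent h54 4 2).symm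
  have z4_44 : g4 4 4 = 0 := by
    simpa [Fin.sum_univ_four, Fin.sum_univ_five, z5_33] using (ent h54 4 3).symm
  have z6_02 : g6 0 2 = 0 := by
    simpa [Fin.sum_univ_three, Fin.sum_univ_four, z5_13] using (ent h56 0 3).symm
  have z5_22 : g5 2 2 = 0 := by
    simpa [Fin.sum_univ_three, Fin.sum_univ_four, z6_11] using ent h56 1 2
  have z7_01 : g7 0 1 = 0 := by
    simpa [Fin.sum_univ_two, Fin.sum_univ_three, z6_02] using ent h76 0 1
  have z1_01 : g1 0 1 = 0 := by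
    simpa [Fin.sum_univ_three, Fin.sum_univ_six, z0_02] using (ent h01 0 2).symm
  have z0_14 : g0 1 4 = 0 := by
    simpa [Fin.sum_univ_four, Fin.sum_univ_six, z2_02] using ent h02 0 4
  have z2_20 : g2 2 0 = 0 := by
    simpa [Fin.sum_univ_four, Fin.sum_univ_six, z0_31] using (ent h02 2 1).symm
  have z2_30 : g2 3 0 = 0 := by
    simpa [Fin.sum_univ_four, Fin.sum_univ_six, z0_51] using (ent h02 3 1).symm
  have z0_04 : g0 0 4 = 0 := by
    simpa [Fin.sum_univ_five, Fin.sum_univ_six, z0_14] using ent h04 0 4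
  have z0_40 : g0 4 0 = 0 := by
    simpa [Fin.sum_univ_five, Fin.sum_univ_six, z4_30] using ent h04 3 0
  have z0_53 : g0 5 3 = 0 := by
    simpa [Fin.sum_univ_five, Fin.sum_univ_six, z4_43] using ent h04 4 3
  have z0_55 : g0 5 5 = 0 := by
    simpa [Fin.sum_univ_five, Fin.sum_univ_six, z4_44] using ent h04 4 5
  have z4_32 : g4 3 2 = 0 := by
    simpa [Fin.sum_univ_four, Fin.sum_univ_five, z5_22, z4_33] using (ent h54 3 2).symm
  have z1_02 : g1 0 2 = 0 := by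
    simpa [Fin.sum_univ_three, Fin.sum_univ_six, z0_04] using (ent h01 0 4).symm
  have z1_20 : g1 2 0 = 0 := by
    simpa [Fin.sum_univ_three, Fin.sum_univ_six, z0_40] using (ent h01 2 0).symm
  have z2_31 : g2 3 1 = 0 := by
    simpa [Fin.sum_univ_four, Fin.sum_univ_six, z0_53] using (ent h02 3 3).symm
  have z2_33 : g2 3 3 = 0 := by
    simpa [Fin.sum_univ_four, Fin.sum_univ_six, z0_55] using (ent h02 3 5).symm
  have z3_10 : g3 1 0 = 0 := by
    simpa [Fin.sum_univ_two, Fin.sum_univ_four, z2_31] using ent h32 3 0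
  have z3_11 : g3 1 1 = 0 := by
    simpa [Fin.sum_univ_two, Fin.sum_univ_four, z2_32, z2_33] using ent h32 3 1
  have z0_42 : g0 4 2 = 0 := by
    simpa [Fin.sum_univ_five, Fin.sum_univ_six, z4_32] using ent h04 3 2
  have z1_21 : g1 2 1 = 0 := by
    simpa [Fin.sum_univ_three, Fin.sum_univ_six, z0_42] using (ent h01 2 2).symm
  have f0 : g0 = 0 := by
    ext i j
    fin_cases i <;> fin_cases j
    exacts [z0_00, z0_01, z0_02, z0_03, z0_04, z0_05, z0_10, z0_11,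
      z0_12, z0_13, z0_14, z0_15, z0_20, z0_21, z0_22, z0_23,
      z0_24, z0_25, z0_30, z0_31, z0_32, z0_33, z0_34, z0_35,
      z0_40, z0_41, z0_42, z0_43, z0_44, z0_45, z0_50, z0_51,
      z0_52, z0_53, z0_54, z0_55]
  have f1 : g1 = 0 := by
    ext i j
    fin_cases i <;> fin_cases j
    exacts [z1_00, z1_01, z1_02, z1_10, z1_11, z1_12, z1_20, z1_21,
      z1_22]
  have f2 : g2 = 0 := by
    ext i j
    fin_cases i <;> fin_cases j
    exacts [z2_00, z2_01, z2_02, z2_03, z2_10, z2_11, z2_12, z2_13,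
      z2_20, z2_21, z2_22, z2_23, z2_30, z2_31, z2_32, z2_33]
  have f3 : g3 = 0 := by
    ext i j
    fin_cases i <;> fin_cases j
    exacts [z3_00, z3_01, z3_10, z3_11]
  have f4 : g4 = 0 := by
    ext i j
    fin_cases i <;> fin_cases j
    exacts [z4_00, z4_01, z4_02, z4_03, z4_04, z4_10, z4_11, z4_12,
      z4_13, z4_14, z4_20, z4_21, z4_22, z4_23, z4_24, z4_30,
      z4_31, z4_32, z4_33, z4_34, z4_40, z4_41, z4_42, z4_43,
      z4_44]
  have f5 : g5 = 0 := by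
    ext i j
    fin_cases i <;> fin_cases j
    exacts [z5_00, z5_01, z5_02, z5_03, z5_10, z5_11, z5_12, z5_13,
      z5_20, z5_21, z5_22, z5_23, z5_30, z5_31, z5_32, z5_33]
  have f6 : g6 = 0 := by
    ext i j
    fin_cases i <;> fin_cases j
    exacts [z6_00, z6_01, z6_02, z6_10, z6_11, z6_12, z6_20, z6_21,
      z6_22]
  have f7 : g7 = 0 := by
    ext i j
    fin_cases i <;> fin_cases j
    exacts [z7_00, z7_01, z7_10, z7_11]
  have f8 : g8 = 0 := by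
    ext i j
    fin_cases i; fin_cases j; exact z8_00
  exact ⟨f0, f1, f2, f3, f4, f5, f6, f7, f8⟩

/-- A representation of `Ẽ₈` of dimension `J`. -/
def e8W0 : ∀ x y : Fin 9, ℕ → Matrix (Fin (JE8 y)) (Fin (JE8 x)) ℂ
  | 0, 1, _ => (!![1, 0, 0, 0, 0, 0; 0, 0, 1, 0, 0, 0; 0, 0, 0, 0, 1, 0] : Matrix (Fin 3) (Fin 6) ℂ)
  | 0, 2, _ => (!![0, 1, 0, 0, 0, 0; 0, 0, 1, 0, 0, 0; 0, 0, 0, 1, 0, 0; 0, 0, 0, 0, 0, 1] : Matrix (Fin 4) (Fin 6) ℂ)
  | 3, 2, _ => (!![0, 0; 1, 0; 0, 0; 0, 1] : Matrix (Fin 4) (Fin 2) ℂ)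
  | 0, 4, _ => (!![1, 1, 0, 0, 0, 0; 0, 0, 1, 0, 0, 0; 0, 0, 0, 1, 0, 0; 0, 0, 0, 0, 1, 0; 0, 0, 0, 0, 0, 1] : Matrix (Fin 5) (Fin 6) ℂ)
  | 5, 4, _ => (!![0, 0, 0, 0; 1, 0, 0, 0; 0, 1, 0, 0; 0, 0, 1, 0; 0, 0, 0, 1] : Matrix (Fin 5) (Fin 4) ℂ)
  | 5, 6, _ => (!![0, 1, 0, 0; 0, 0, 1, 0; 0, 0, 0, 1] : Matrix (Fin 3) (Fin 4) ℂ)
  | 7, 6, _ => (!![1, 0; 0, 1; 0, 0] : Matrix (Fin 3) (Fin 2) ℂ)
  | 7, 8, _ => (!![0, 1] : Matrix (Fin 1) (Fin 2) ℂ)
  | _, _, _ => 0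

/-- A representation of `Ẽ₈` of dimension `J`. -/
def e8W1 : ∀ x y : Fin 9, ℕ → Matrix (Fin (JE8 y)) (Fin (JE8 x)) ℂ
  | 0, 1, _ => (!![1, 0, 0, 0, 0, 0; 0, 0, 1, 0, 0, 0; 0, 0, 0, 0, 1, 0] : Matrix (Fin 3) (Fin 6) ℂ)
  | 0, 2, _ => (!![0, 1, 0, 0, 0, 0; 0, 0, 0, 1, 0, 0; 0, 0, 0, 0, 1, 0; 0, 0, 0, 0, 0, 1] : Matrix (Fin 4) (Fin 6) ℂ)
  | 3, 2, _ => (!![0, 0; 1, 0; 0, 1; 0, 1] : Matrix (Fin 4) (Fin 2) ℂ)
  | 0, 4, _ => (!![1, 0, 0, 0, 0, 0; 0, 1, 0, 0, 0, 0; 0, 0, 1, 0, 0, 0; 0, 0, 0, 1, 0, 0; 0, 0, 0, 0, 0, 1] : Matrix (Fin 5) (Fin 6) ℂ)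
  | 5, 4, _ => (!![1, 0, 0, 0; 0, 1, 0, 0; 0, 0, 1, 0; 0, 0, 1, 0; 0, 0, 0, 1] : Matrix (Fin 5) (Fin 4) ℂ)
  | 5, 6, _ => (!![1, 1, 0, 0; 0, 0, 1, 0; 0, 0, 0, 1] : Matrix (Fin 3) (Fin 4) ℂ)
  | 7, 6, _ => (!![0, 0; 1, 0; 0, 1] : Matrix (Fin 3) (Fin 2) ℂ)
  | 7, 8, _ => (!![0, 1] : Matrix (Fin 1) (Fin 2) ℂ)
  | _, _, _ => 0

/-- The colouring with sources `true`. -/
def e8Col : Fin 9 → Bool := ![true, false, false, true, false, true, false, true, false]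

theorem e8_hom01 : Hom0 adjE8 JE8 e8Col e8W0 e8W1 := by
  intro γ hγ
  have h := e8_01 (γ 0) (γ 1) (γ 2) (γ 3) (γ 4) (γ 5) (γ 6) (γ 7) (γ 8)
    (hγ 0 1 0 rfl rfl (by decide))
    (hγ 0 2 0 rfl rfl (by decide))
    (hγ 3 2 0 rfl rfl (by decide))
    (hγ 0 4 0 rfl rfl (by decide))
    (hγ 5 4 0 rfl rfl (by decide))
    (hγ 5 6 0 rfl rfl (by decide))
    (hγ 7 6 0 rfl rfl (by decide))
    (hγ 7 8 0 rfl rfl (by decide))
  obtain ⟨h0, h1, h2, h3, h4, h5, h6, h7, h8⟩ := h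
  intro v
  fin_cases v
  exacts [h0, h1, h2, h3, h4, h5, h6, h7, h8]

theorem e8_hom10 : Hom0 adjE8 JE8 e8Col e8W1 e8W0 := by
  intro γ hγ
  have h := e8_10 (γ 0) (γ 1) (γ 2) (γ 3) (γ 4) (γ 5) (γ 6) (γ 7) (γ 8)
    (hγ 0 1 0 rfl rfl (by decide))
    (hγ 0 2 0 rfl rfl (by decide))
    (hγ 3 2 0 rfl rfl (by decide))
    (hγ 0 4 0 rfl rfl (by decide))
    (hγ 5 4 0 rfl rfl (by decide))
    (hγ 5 6 0 rfl rfl (by decide))
    (hγ 7 6 0 rfl rfl (by decide))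
    (hγ 7 8 0 rfl rfl (by decide))
  obtain ⟨h0, h1, h2, h3, h4, h5, h6, h7, h8⟩ := h
  intro v
  fin_cases v
  exacts [h0, h1, h2, h3, h4, h5, h6, h7, h8]

theorem e8_col (c : Fin 9 → Bool) (hc : ∀ x y, adjE8 x y ≠ 0 → c x ≠ c y) :
    c = e8Col ∨ c = fun v => !(e8Col v) := by
  have e1 : c 1 = !(c 0) := Bool.eq_not_of_ne (hc 1 0 (by decide))
  have e2 : c 2 = !(c 0) := Bool.eq_not_of_ne (hc 2 0 (by decide))
  have e3 : c 3 = !(c 2) := Bool.eq_not_of_ne (hc 3 2 (by decide))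
  have e4 : c 4 = !(c 0) := Bool.eq_not_of_ne (hc 4 0 (by decide))
  have e5 : c 5 = !(c 4) := Bool.eq_not_of_ne (hc 5 4 (by decide))
  have e6 : c 6 = !(c 5) := Bool.eq_not_of_ne (hc 6 5 (by decide))
  have e7 : c 7 = !(c 6) := Bool.eq_not_of_ne (hc 7 6 (by decide))
  have e8 : c 8 = !(c 7) := Bool.eq_not_of_ne (hc 8 7 (by decide))
  cases h0 : c 0
  · right
    funext v
    fin_cases v <;> simp [e8Col, e1, e2, e3, e4, e5, e6, e7, e8, h0]
  · left
    funext v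
    fin_cases v <;> simp [e8Col, e1, e2, e3, e4, e5, e6, e7, e8, h0]

theorem e8_symm (x y : Fin 9) : adjE8 x y = adjE8 y x := by
  unfold adjE8 edges
  exact Nat.add_comm _ _

theorem e8_pairs : HasPairs adjE8 JE8 :=
  HasPairs.of_unique e8_symm e8Col e8_col e8W0 e8W1 e8_hom01 e8_hom10

theorem e8_balance (x : Fin 9) : ∑ y, adjE8 x y * JE8 y = 2 * JE8 x := by
  fin_cases x <;> decide

end Pool.Agent.KS6_42.MS
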