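import Pool.Agent.KS6_42.MS.Loc

/-!
# Nonscalar endomorphisms of all elements of a bimodule
-/

set_option autoImplicit false

open MulOpposite Filter Topology

namespace Pool.Agent.KS6_42.MS

section line

variable {U L : Type*} [AddCommGroup U] [Module ℂ U] [FiniteDimensional ℂ U]
  [AddCommGroup L] [Module ℂ L]

/-- If the kernel of `T₀ + z T₁` has dimension at least two for infinitely many `z`, then for
all `z`. -/
theorem line (T0 T1 : U →ₗ[ℂ] L) (S : Set ℂ) (hS : S.Infinite)
    (h : ∀ z ∈ S, 2 ≤ Module.finrank ℂ (LinearMap.ker (T0 + z • T1))) (z1 : ℂ) :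
    2 ≤ Module.finrank ℂ (LinearMap.ker (T0 + z1 • T1)) := by
  classical
  by_contra hlt
  have hle : Module.finrank ℂ (LinearMap.ker (T0 + z1 • T1)) ≤ 1 := by omega
  -- a functional which is injective on the kernel
  obtain ⟨f, hf⟩ : ∃ f : U →ₗ[ℂ] ℂ, ∀ u, (T0 + z1 • T1) u = 0 → f u = 0 → u = 0 := by
    obtain ⟨v, hv⟩ := finrank_le_one_iff.1 hle
    by_cases hv0 : (v : U) = 0
    · refine ⟨0, fun u hu _ => ?_⟩
      obtain ⟨c, hc⟩ := hv ⟨u, hu⟩
      have := congrArg Subtype.val hc
      simpa [hv0] using this.symm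
    · obtain ⟨f, hf⟩ := Module.Projective.exists_dual_ne_zero ℂ hv0
      refine ⟨f, fun u hu h0 => ?_⟩
      obtain ⟨c, hc⟩ := hv ⟨u, hu⟩
      have hc' : c • (v : U) = u := congrArg Subtype.val hc
      rw [← hc', map_smul, smul_eq_mul] at h0
      rcases mul_eq_zero.1 h0 with h1 | h1
      · rw [← hc', h1, zero_smul]
      · exact absurd h1 hf
  -- a left inverse
  let F : ℂ → U →ₗ[ℂ] L × ℂ := fun z => (T0 + z • T1).prod f
  have hinj : LinearMap.ker (F z1) = ⊥ := by
    rw [LinearMap.ker_eq_bot']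
    intro u hu
    have h1 : (T0 + z1 • T1) u = 0 := congrArg Prod.fst hu
    have h2 : f u = 0 := congrArg Prod.snd hu
    exact hf u h1 h2
  obtain ⟨G, hG⟩ := (F z1).exists_leftInverse_of_injective hinj
  let b := Module.finBasis ℂ U
  let M0 := LinearMap.toMatrix b b (G ∘ₗ (T0.prod f))
  let M1 := LinearMap.toMatrix b b (G ∘ₗ (T1.prod 0))
  have hM : ∀ z, LinearMap.toMatrix b b (G ∘ₗ F z) = M0 + z • M1 := by
    intro z
    have : G ∘ₗ F z = G ∘ₗ (T0.prod f) + z • (G ∘ₗ (T1.prod 0)) := by
      ext u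
      simp only [F, LinearMap.comp_apply, LinearMap.prod_apply, LinearMap.add_apply,
        LinearMap.smul_apply]
      rw [← map_smul, ← map_add]
      congr 1
      ext <;> simp
    rw [this, map_add, map_smul]
  let P : Polynomial ℂ := Matrix.det (M0.map Polynomial.C + (Polynomial.X : Polynomial ℂ) •
    M1.map Polynomial.C)
  have hP : ∀ z, P.eval z = (M0 + z • M1).det := by
    intro z
    have := RingHom.map_det (Polynomial.evalRingHom z) (M0.map Polynomial.C +
      (Polynomial.X : Polynomial ℂ) • M1.map Polynomial.C)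
    rw [Polynomial.coe_evalRingHom] at this
    rw [this]
    congr 1
    ext i j
    simp
    exact mul_comm _ _
  have hP1 : P.eval z1 = 1 := by
    rw [hP, ← hM, hG, LinearMap.toMatrix_id, Matrix.det_one]
  have hP0 : P ≠ 0 := by
    intro h0
    rw [h0, Polynomial.eval_zero] at hP1
    exact zero_ne_one hP1
  obtain ⟨z, hz, hz'⟩ : ∃ z ∈ S, P.eval z ≠ 0 := by
    by_contra hcon
    push Not at hcon
    exact hP0 (Polynomial.eq_zero_of_infinite_isRoot P (hS.mono fun z hz => hcon z hz))
  have h2 := h z hz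
  have h3 : Function.Injective (F z) := by
    have h4 : IsUnit (LinearMap.toMatrix b b (G ∘ₗ F z)) := by
      rw [Matrix.isUnit_iff_isUnit_det, hM, ← hP]
      exact isUnit_iff_ne_zero.2 hz'
    have h5 : Function.Injective (G ∘ₗ F z) := by
      rw [← LinearMap.ker_eq_bot]
      have := (LinearMap.toMatrixAlgEquiv b).toMulEquiv
      have h6 : IsUnit (G ∘ₗ F z) := by
        have := h4.map (LinearMap.toMatrixAlgEquiv b).symm
        convert this using 1
        exact ((LinearMap.toMatrixAlgEquiv b).symm_apply_apply (G ∘ₗ F z)).symm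
      exact (LinearMap.isUnit_iff_ker_eq_bot _).1 h6
    exact Function.Injective.of_comp (f := G) h5
  -- `f` is injective on the kernel
  have h7 : Module.finrank ℂ (LinearMap.ker (T0 + z • T1)) ≤ Module.finrank ℂ ℂ := by
    apply LinearMap.finrank_le_finrank_of_injective
      (f := f ∘ₗ (LinearMap.ker (T0 + z • T1)).subtype)
    intro u v huv
    apply Subtype.ext
    apply h3
    have hu : (T0 + z • T1) (u : U) = 0 := u.2
    have hv : (T0 + z • T1) (v : U) = 0 := v.2
    exact Prod.ext (hu.trans hv.symm) huv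
  rw [Module.finrank_self] at h7
  omega

end line

section endo

variable {A B L : Type*} [NormedRing A] [NormedAlgebra ℂ A] [FiniteDimensional ℂ A]
  [NormedRing B] [NormedAlgebra ℂ B] [FiniteDimensional ℂ B]
  [NormedAddCommGroup L] [NormedSpace ℂ L] [FiniteDimensional ℂ L]

/-- The map whose kernel is the endomorphism ring of `ψ`. -/
noncomputable def endoMap (l : B →ₐ[ℂ] Module.End ℂ L) (r : Aᵐᵒᵖ →ₐ[ℂ] Module.End ℂ L) (ψ : L) :
    A × B →ₗ[ℂ] L where
  toFun z := r (op z.1) ψ - l z.2 ψ
  map_add' x y := by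
    have h1 : r (op (x + y).1) = r (op x.1) + r (op y.1) := by
      rw [Prod.fst_add, op_add, map_add]
    have h2 : l (x + y).2 = l x.2 + l y.2 := by rw [Prod.snd_add, map_add]
    rw [h1, h2, LinearMap.add_apply, LinearMap.add_apply]; abel
  map_smul' c x := by
    have h1 : r (op (c • x).1) = c • r (op x.1) := by rw [Prod.smul_fst, op_smul, map_smul]
    have h2 : l (c • x).2 = c • l x.2 := by rw [Prod.smul_snd, map_smul]
    rw [h1, h2, LinearMap.smul_apply, LinearMap.smul_apply, RingHom.id_apply, smul_sub]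

theorem exists_endo (l : B →ₐ[ℂ] Module.End ℂ L) (r : Aᵐᵒᵖ →ₐ[ℂ] Module.End ℂ L)
    (hcomm : ∀ b a v, l b (r a v) = r a (l b v))
    (φ : L) (e : A) (e' : B) (he : e * e = e) (he0 : e ≠ 0) (he1 : e ≠ 1)
    (hφ : φ ∈ diagL l r e e')
    (hsurj : ∀ v : L, ∃ (a : A) (b : B) (d : L), d ∈ diagL l r e e' ∧
      v = r (op a) φ - l b φ - d) (ψ : L) :
    ∃ (a : A) (b : B), r (op a) ψ = l b ψ ∧ ¬ ∃ c : ℂ, a = c • (1 : A) ∧ b = c • (1 : B) := by
  classical
  have hnear := near l r φ e e' hsurj
  -- the kernel has dimension at least two near `φ`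
  have hker : ∀ᶠ χ in 𝓝 φ, 2 ≤ Module.finrank ℂ (LinearMap.ker (endoMap l r χ)) := by
    filter_upwards [hnear] with χ hχ
    obtain ⟨a, b, d, ⟨u, hu⟩, ⟨w, hw⟩, hd, hab⟩ := hχ
    set a1 : A := u * e * ↑u⁻¹ with ha1
    set b1 : B := w * e' * ↑w⁻¹ with hb1
    have hmem1 : ((1 : A), (1 : B)) ∈ LinearMap.ker (endoMap l r χ) := by
      rw [LinearMap.mem_ker]
      show r (op 1) χ - l 1 χ = 0
      rw [op_one, map_one, map_one, sub_self]
    have hd' : (φ + d) ∈ diagL l r e e' := (diagL l r e e').add_mem hφ hd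
    rw [mem_diagL] at hd'
    have hmem2 : (a1, b1) ∈ LinearMap.ker (endoMap l r χ) := by
      rw [LinearMap.mem_ker]
      show r (op a1) χ - l b1 χ = 0
      rw [← hu, ← hw] at hab
      have e1 : r (op a1) χ = r (op (↑u⁻¹ : A)) (r (op e) (r (op (u : A)) χ)) := by
        rw [ha1, op_mul, op_mul, map_mul, map_mul]; rfl
      have e2 : l b1 χ = l w (l e' (l (↑w⁻¹ : B) χ)) := by
        rw [hb1, map_mul, map_mul]; rfl
      have e3 : χ = r (op (↑u⁻¹ : A)) (l w (φ + d)) := by
        rw [← hab, ← Module.End.mul_apply, ← map_mul, ← op_mul, Units.mul_inv, op_one, map_one]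
        rfl
      have e5 : ∀ x : L, l (↑w⁻¹ : B) (l (w : B) x) = x := fun x => by
        rw [← Module.End.mul_apply, ← map_mul, Units.inv_mul, map_one]; rfl
      have e4 : l (↑w⁻¹ : B) χ = r (op (↑u⁻¹ : A)) (φ + d) := by
        rw [congrArg (l (↑w⁻¹ : B)) e3, hcomm, e5]
      rw [e1, e2, hab, e4, hcomm, hd', hcomm, hcomm, sub_self]
    have hli : LinearIndependent ℂ ![(⟨_, hmem1⟩ : LinearMap.ker (endoMap l r χ)), ⟨_, hmem2⟩] := by
      rw [LinearIndependent.pair_iff]
      intro s t hst
      have h1 : s • (1 : A) + t • a1 = 0 := congrArg (fun z => (Subtype.val z).1) hst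
      have h2 : s • (1 : A) + t • e = 0 := by
        have h3 : (↑u⁻¹ : A) * (s • (1 : A) + t • a1) * u = 0 := by rw [h1, mul_zero, zero_mul]
        rw [← h3, ha1]
        simp only [mul_add, add_mul, mul_smul_comm, smul_mul_assoc, mul_one, mul_assoc,
          Units.inv_mul, Units.inv_mul_cancel_left]
      have ht : t = 0 := by
        by_contra ht
        have h4 : e = (-(t⁻¹ * s)) • (1 : A) := by
          have : t • e = (-s) • (1 : A) := by
            rw [neg_smul]; exact eq_neg_of_add_eq_zero_right h2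
          have h5 := congrArg (fun x => t⁻¹ • x) this
          simp only [smul_smul, inv_mul_cancel₀ ht, one_smul] at h5
          rw [h5]; congr 1; ring
        set c := -(t⁻¹ * s) with hc
        rw [h4] at he
        simp only [smul_mul_smul_comm, mul_one] at he
        have hne : (1 : A) ≠ 0 := fun h => he1 (by rw [h]; exact (by
          have : ∀ x : A, x = 0 := fun x => by rw [← mul_one x, h, mul_zero]
          exact this e))
        have h6 : (c * c - c) • (1 : A) = 0 := by rw [sub_smul, he, sub_self]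
        rcases smul_eq_zero.1 h6 with h7 | h7
        · have h8 : c * (c - 1) = 0 := by rw [← h7]; ring
          rcases mul_eq_zero.1 h8 with h9 | h9
          · exact he0 (by rw [h4, h9, zero_smul])
          · exact he1 (by rw [h4, sub_eq_zero.1 h9, one_smul])
        · exact hne h7
      refine ⟨?_, ht⟩
      rw [ht, zero_smul, add_zero] at h2
      by_contra hs
      rcases smul_eq_zero.1 h2 with h7 | h7
      · exact hs h7
      · exact he1 (by
          have : ∀ x : A, x = 0 := fun x => by rw [← mul_one x, h7, mul_zero]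
          rw [this e, this 1])
    have := hli.fintype_card_le_finrank
    simpa using this
  -- the line through `φ` and `ψ`
  have hline : ∀ z : ℂ, endoMap l r (φ + z • (ψ - φ)) = endoMap l r φ +
      z • endoMap l r (ψ - φ) := by
    intro z
    apply LinearMap.ext
    intro x
    show r (op x.1) (φ + z • (ψ - φ)) - l x.2 (φ + z • (ψ - φ)) =
      (r (op x.1) φ - l x.2 φ) + z • (r (op x.1) (ψ - φ) - l x.2 (ψ - φ))
    rw [map_add, map_add, map_smul, map_smul, smul_sub]; abel
  have hS : Set.Infinite {z : ℂ | 2 ≤ Module.finrank ℂ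
      (LinearMap.ker (endoMap l r φ + z • endoMap l r (ψ - φ)))} := by
    have hc : Filter.Tendsto (fun z : ℂ => φ + z • (ψ - φ)) (𝓝 0) (𝓝 φ) := by
      have : Continuous (fun z : ℂ => φ + z • (ψ - φ)) := by fun_prop
      have h1 := this.tendsto 0
      simpa using h1
    have h1 := hc.eventually hker
    have h2 : {z : ℂ | 2 ≤ Module.finrank ℂ
      (LinearMap.ker (endoMap l r φ + z • endoMap l r (ψ - φ)))} ∈ 𝓝 (0 : ℂ) := by
      filter_upwards [h1] with z hz
      rwa [hline] at hz
    exact infinite_of_mem_nhds 0 h2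
  have hfin := line (endoMap l r φ) (endoMap l r (ψ - φ)) _ hS (fun z hz => hz) 1
  rw [← hline, one_smul, add_sub_cancel] at hfin
  by_contra hcon
  push Not at hcon
  have hle : LinearMap.ker (endoMap l r ψ) ≤ Submodule.span ℂ {((1 : A), (1 : B))} := by
    rintro ⟨a, b⟩ hab
    rw [LinearMap.mem_ker] at hab
    obtain ⟨c, h1, h2⟩ := hcon a b (sub_eq_zero.1 hab)
    rw [Submodule.mem_span_singleton]
    exact ⟨c, by rw [h1, h2]; rfl⟩
  have h8 := Submodule.finrank_mono hle
  have h9 : Module.finrank ℂ (Submodule.span ℂ {((1 : A), (1 : B))}) ≤ 1 := by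
    have := finrank_span_le_card (R := ℂ) ({((1 : A), (1 : B))} : Set (A × B))
    simpa using this
  omega

end endo

end Pool.Agent.KS6_42.MS
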