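import Mathlib

/-!
# Bimodules: an element near a decomposable one is decomposable

`A`, `B` are finite-dimensional complex algebras, `L` is a `B`-`A`-bimodule, `φ₀ ∈ L`, and `e ∈ A`,
`e' ∈ B` are idempotents with `e' φ₀ = φ₀ e`. If `L = B φ₀ + φ₀ A + {δ : e' δ = δ e}` then every
element `ψ` near `φ₀` satisfies `ψ a = b ψ` with conjugates `a`, `b` of `e`, `e'`.
-/

set_option autoImplicit false

open MulOpposite Filter Topology

namespace Pool.Agent.KS6_42.MS

section loc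

set_option linter.unusedSectionVars false

variable {A B L : Type*} [NormedRing A] [NormedAlgebra ℂ A] [FiniteDimensional ℂ A]
  [NormedRing B] [NormedAlgebra ℂ B] [FiniteDimensional ℂ B]
  [NormedAddCommGroup L] [NormedSpace ℂ L] [FiniteDimensional ℂ L]

/-- The left action as a continuous bilinear map. -/
noncomputable def lc (l : B →ₐ[ℂ] Module.End ℂ L) : B →L[ℂ] L →L[ℂ] L :=
  LinearMap.toContinuousLinearMap
    ((LinearMap.toContinuousLinearMap (E := L) (F' := L)).toLinearMap ∘ₗ l.toLinearMap)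

lemma lc_apply (l : B →ₐ[ℂ] Module.End ℂ L) (b : B) (v : L) : lc l b v = l b v := rfl

/-- The right action as a continuous bilinear map. -/
noncomputable def rc (r : Aᵐᵒᵖ →ₐ[ℂ] Module.End ℂ L) : L →L[ℂ] A →L[ℂ] L :=
  (LinearMap.toContinuousLinearMap
    ((LinearMap.toContinuousLinearMap (E := L) (F' := L)).toLinearMap ∘ₗ r.toLinearMap ∘ₗ
      (MulOpposite.opLinearEquiv ℂ (M := A)).toLinearMap)).flip

lemma rc_apply (r : Aᵐᵒᵖ →ₐ[ℂ] Module.End ℂ L) (a : A) (v : L) : rc r v a = r (op a) v := rfl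

/-- The elements `δ` with `e' δ = δ e`. -/
def diagL (l : B →ₐ[ℂ] Module.End ℂ L) (r : Aᵐᵒᵖ →ₐ[ℂ] Module.End ℂ L) (e : A) (e' : B) :
    Submodule ℂ L := LinearMap.ker (l e' - r (op e))

lemma mem_diagL {l : B →ₐ[ℂ] Module.End ℂ L} {r : Aᵐᵒᵖ →ₐ[ℂ] Module.End ℂ L} {e : A} {e' : B}
    {v : L} : v ∈ diagL l r e e' ↔ l e' v = r (op e) v := by
  rw [diagL, LinearMap.mem_ker, LinearMap.sub_apply, sub_eq_zero]

theorem near (l : B →ₐ[ℂ] Module.End ℂ L) (r : Aᵐᵒᵖ →ₐ[ℂ] Module.End ℂ L)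
    (φ : L) (e : A) (e' : B)
    (hsurj : ∀ v : L, ∃ (a : A) (b : B) (d : L), d ∈ diagL l r e e' ∧
      v = r (op a) φ - l b φ - d) :
    ∀ᶠ ψ in 𝓝 φ, ∃ (a : A) (b : B) (d : L), IsUnit (1 + a) ∧ IsUnit (1 + b) ∧
      d ∈ diagL l r e e' ∧ r (op (1 + a)) ψ = l (1 + b) (φ + d) := by
  classical
  set Δ := diagL l r e e'
  have : CompleteSpace A := FiniteDimensional.complete ℂ A
  have : CompleteSpace B := FiniteDimensional.complete ℂ B
  have : CompleteSpace L := FiniteDimensional.complete ℂ L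
  have : CompleteSpace Δ := FiniteDimensional.complete ℂ Δ
  -- the map
  let H : L × (A × (B × Δ)) → L × L := fun z =>
    (z.1, z.1 + rc r z.1 z.2.1 - (φ + (z.2.2.2 : L)) - lc l z.2.2.1 (φ + (z.2.2.2 : L)))
  let pL : L × (A × (B × Δ)) →L[ℂ] L := ContinuousLinearMap.fst ℂ _ _
  let pA : L × (A × (B × Δ)) →L[ℂ] A :=
    (ContinuousLinearMap.fst ℂ _ _).comp (ContinuousLinearMap.snd ℂ _ _)
  let pB : L × (A × (B × Δ)) →L[ℂ] B :=
    (ContinuousLinearMap.fst ℂ _ _).comp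
      ((ContinuousLinearMap.snd ℂ _ _).comp (ContinuousLinearMap.snd ℂ _ _))
  let pD : L × (A × (B × Δ)) →L[ℂ] L :=
    Δ.subtypeL.comp ((ContinuousLinearMap.snd ℂ _ _).comp
      ((ContinuousLinearMap.snd ℂ _ _).comp (ContinuousLinearMap.snd ℂ _ _)))
  let z0 : L × (A × (B × Δ)) := (φ, 0, 0, 0)
  let H' : L × (A × (B × Δ)) →L[ℂ] L × L :=
    pL.prod (pL + (rc r φ).comp pA - pD - ((lc l).flip φ).comp pB)
  have hH : HasStrictFDerivAt H H' z0 := by
    apply HasStrictFDerivAt.prodMk pL.hasStrictFDerivAt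
    have h1 : HasStrictFDerivAt (fun z => pL z) pL z0 := pL.hasStrictFDerivAt
    have hA : HasStrictFDerivAt (fun z => pA z) pA z0 := pA.hasStrictFDerivAt
    have hB : HasStrictFDerivAt (fun z => pB z) pB z0 := pB.hasStrictFDerivAt
    have hD : HasStrictFDerivAt (fun z => φ + pD z) pD z0 := by
      simpa using pD.hasStrictFDerivAt.const_add φ
    have h2 : HasStrictFDerivAt (fun z => rc r (pL z) (pA z)) ((rc r φ).comp pA) z0 := by
      have h := (rc r).isBoundedBilinearMap.hasStrictFDerivAt (pL z0, pA z0)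
      have h' := h.comp z0 (h1.prodMk hA)
      refine h'.congr_fderiv (ContinuousLinearMap.ext fun z => ?_)
      rw [ContinuousLinearMap.comp_apply, IsBoundedBilinearMap.deriv_apply]
      simp [z0, pL, pA]
    have h3 : HasStrictFDerivAt (fun z => lc l (pB z) (φ + pD z)) (((lc l).flip φ).comp pB) z0 := by
      have h := (lc l).isBoundedBilinearMap.hasStrictFDerivAt (pB z0, φ + pD z0)
      have h' := h.comp z0 (hB.prodMk hD)
      refine h'.congr_fderiv (ContinuousLinearMap.ext fun z => ?_)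
      rw [ContinuousLinearMap.comp_apply, IsBoundedBilinearMap.deriv_apply]
      simp [z0, pB, pD]
    exact (((h1.add h2).sub hD).sub h3)
  have hsurj' : (H' : L × (A × (B × Δ)) →L[ℂ] L × L).range = ⊤ := by
    rw [LinearMap.range_eq_top]
    rintro ⟨u, v⟩
    obtain ⟨a, b, d, hd, hv⟩ := hsurj (v - u)
    refine ⟨(u, a, b, ⟨d, hd⟩), ?_⟩
    have : u + r (op a) φ - d - l b φ = v := by
      rw [sub_eq_iff_eq_add] at hv
      rw [hv]; abel
    simpa [H', pL, pA, pB, pD, rc_apply, lc_apply] using this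
  have hmap := hH.map_nhds_eq_of_surj hsurj'
  have hH0 : H z0 = (φ, 0) := by
    simp [H, z0]
  rw [hH0] at hmap
  -- a neighbourhood on which the units are units
  have hU : ∀ᶠ z in 𝓝 z0, IsUnit (1 + pA z) ∧ IsUnit (1 + pB z) := by
    apply Filter.Eventually.and
    · have hc : ContinuousAt (fun z => 1 + pA z) z0 := by fun_prop
      have : IsUnit (1 + pA z0) := by simp [z0, pA]
      exact hc.eventually (Units.isOpen.mem_nhds this)
    · have hc : ContinuousAt (fun z => 1 + pB z) z0 := by fun_prop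
      have : IsUnit (1 + pB z0) := by simp [z0, pB]
      exact hc.eventually (Units.isOpen.mem_nhds this)
  have h5 : {w | ∃ z, (IsUnit (1 + pA z) ∧ IsUnit (1 + pB z)) ∧ H z = w} ∈ 𝓝 ((φ, 0) : L × L) := by
    rw [← hmap, Filter.mem_map]
    filter_upwards [hU] with z hz
    exact ⟨z, hz, rfl⟩
  have h6 : Filter.Tendsto (fun ψ : L => ((ψ, 0) : L × L)) (𝓝 φ) (𝓝 (φ, 0)) := by
    have : Continuous (fun ψ : L => ((ψ, 0) : L × L)) := by fun_prop
    exact this.tendsto φ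
  filter_upwards [h6 h5] with ψ hψ
  obtain ⟨z, ⟨hz1, hz2⟩, hz3⟩ := hψ
  have e1 : z.1 = ψ := congrArg Prod.fst hz3
  have e2 : z.1 + rc r z.1 z.2.1 - (φ + (z.2.2.2 : L)) - lc l z.2.2.1 (φ + (z.2.2.2 : L)) = 0 :=
    congrArg Prod.snd hz3
  refine ⟨z.2.1, z.2.2.1, (z.2.2.2 : L), hz1, hz2, z.2.2.2.2, ?_⟩
  rw [rc_apply, lc_apply, e1, sub_sub, sub_eq_zero] at e2
  have e3 : r (op (1 + z.2.1)) ψ = ψ + r (op z.2.1) ψ := by
    rw [op_add, map_add, op_one, map_one]; rfl
  have e4 : l (1 + z.2.2.1) (φ + (z.2.2.2 : L)) = (φ + (z.2.2.2 : L)) +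
      l z.2.2.1 (φ + (z.2.2.2 : L)) := by
    have e5 : l (1 + z.2.2.1) = 1 + l z.2.2.1 := by rw [map_add, map_one]
    rw [e5]; rfl
  rw [e3, e4, e2]

end loc

end Pool.Agent.KS6_42.MS
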