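import Pool.Agent.KS6_42.MS.Line

/-!
# Representations of a bipartite quiver in a multiple of the dimension vector `J`

`a : I → K → ℕ` are the numbers of arrows, `p : I → ℕ` and `q : K → ℕ` the coordinates of `J`.
If there are two representations of dimension `J` without nonzero homomorphisms between them in
either direction, then every representation of dimension `N J`, `N ≥ 2`, has a nonscalar
endomorphism.
-/

set_option autoImplicit false

open MulOpposite Matrix

set_option linter.unusedSectionVars false

namespace Pool.Agent.KS6_42.MS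

/-- The representations with spaces `ℂ^(X i)`, `ℂ^(Y k)`. -/
abbrev HomS {I K : Type} (a : I → K → ℕ) (X : I → Type) (Y : K → Type) : Type :=
  ∀ (i : I) (k : K), Fin (a i k) → Matrix (Y k) (X i) ℂ

/-- The algebra of endomorphisms at the vertices. -/
abbrev EndS {I : Type} (X : I → Type) : Type := ∀ i : I, Matrix (X i) (X i) ℂ

section actions

variable {I K : Type} (a : I → K → ℕ) (X : I → Type) (Y : K → Type)
  [∀ i, Fintype (X i)] [∀ k, Fintype (Y k)] [∀ i, DecidableEq (X i)] [∀ k, DecidableEq (Y k)]

/-- The left action. -/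
noncomputable def lAct : EndS Y →ₐ[ℂ] Module.End ℂ (HomS a X Y) :=
  AlgHom.ofLinearMap
    { toFun := fun b =>
        { toFun := fun v i k s => b k * v i k s
          map_add' := fun v w => by funext i k s; exact Matrix.mul_add _ _ _
          map_smul' := fun c v => by funext i k s; exact Matrix.mul_smul _ c _ }
      map_add' := fun b b' => by
        apply LinearMap.ext; intro v; funext i k s; exact Matrix.add_mul _ _ _
      map_smul' := fun c b => by
        apply LinearMap.ext; intro v; funext i k s; exact Matrix.smul_mul c _ _ }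
    (by apply LinearMap.ext; intro v; funext i k s; exact Matrix.one_mul _)
    (by intro b b'; apply LinearMap.ext; intro v; funext i k s; exact Matrix.mul_assoc _ _ _)

/-- The right action. -/
noncomputable def rAct : (EndS X)ᵐᵒᵖ →ₐ[ℂ] Module.End ℂ (HomS a X Y) :=
  AlgHom.ofLinearMap
    { toFun := fun b =>
        { toFun := fun v i k s => v i k s * b.unop i
          map_add' := fun v w => by funext i k s; exact Matrix.add_mul _ _ _
          map_smul' := fun c v => by funext i k s; exact Matrix.smul_mul c _ _ }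
      map_add' := fun b b' => by
        apply LinearMap.ext; intro v; funext i k s; exact Matrix.mul_add _ _ _
      map_smul' := fun c b => by
        apply LinearMap.ext; intro v; funext i k s; exact Matrix.mul_smul _ c _ }
    (by apply LinearMap.ext; intro v; funext i k s; exact Matrix.mul_one _)
    (by
      intro b b'; apply LinearMap.ext; intro v; funext i k s
      exact (Matrix.mul_assoc _ _ _).symm)

variable {a X Y}

lemma lAct_apply (b : EndS Y) (v : HomS a X Y) (i : I) (k : K) (s : Fin (a i k)) :
    lAct a X Y b v i k s = b k * v i k s := rfl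

lemma rAct_apply (b : EndS X) (v : HomS a X Y) (i : I) (k : K) (s : Fin (a i k)) :
    rAct a X Y (op b) v i k s = v i k s * b i := rfl

end actions

section surj

variable {I K : Type} [Fintype I] [Fintype K] (a : I → K → ℕ) (p : I → ℕ) (q : K → ℕ)

/-- The map whose kernel is `Hom(F, G)`. -/
noncomputable def dMap (F G : HomS a (fun i => Fin (p i)) (fun k => Fin (q k))) :
    (EndS (fun i => Fin (p i)) × EndS (fun k => Fin (q k))) →ₗ[ℂ]
      HomS a (fun i => Fin (p i)) (fun k => Fin (q k)) where
  toFun z i k s := G i k s * z.1 i - z.2 k * F i k s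
  map_add' x y := by
    funext i k s
    show G i k s * (x.1 i + y.1 i) - (x.2 k + y.2 k) * F i k s =
      (G i k s * x.1 i - x.2 k * F i k s) + (G i k s * y.1 i - y.2 k * F i k s)
    rw [Matrix.mul_add, Matrix.add_mul]; abel
  map_smul' c x := by
    funext i k s
    show G i k s * (c • x.1 i) - (c • x.2 k) * F i k s =
      c • (G i k s * x.1 i - x.2 k * F i k s)
    rw [Matrix.mul_smul, Matrix.smul_mul, smul_sub]

variable {a p q}

theorem dMap_surj (hp : ∀ i, ∑ k, a i k * q k = 2 * p i) (hq : ∀ k, ∑ i, a i k * p i = 2 * q k)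
    (F G : HomS a (fun i => Fin (p i)) (fun k => Fin (q k)))
    (h : ∀ (α : EndS (fun i => Fin (p i))) (β : EndS (fun k => Fin (q k))),
      (∀ i k s, G i k s * α i = β k * F i k s) → α = 0 ∧ β = 0) :
    Function.Surjective (dMap a p q F G) := by
  have hinj : Function.Injective (dMap a p q F G) := by
    rw [← LinearMap.ker_eq_bot, LinearMap.ker_eq_bot']
    rintro ⟨α, β⟩ h0
    obtain ⟨h1, h2⟩ := h α β (fun i k s => by
      have := congrFun (congrFun (congrFun h0 i) k) s
      exact sub_eq_zero.1 this)
    rw [h1, h2]; rfl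
  refine (LinearMap.injective_iff_surjective_of_finrank_eq_finrank ?_).1 hinj
  have e1 : Module.finrank ℂ (EndS (fun i => Fin (p i)) × EndS (fun k => Fin (q k))) =
      (∑ i, p i * p i) + ∑ k, q k * q k := by
    rw [Module.finrank_prod, Module.finrank_pi_fintype, Module.finrank_pi_fintype]
    congr 1
    · refine Finset.sum_congr rfl fun i _ => ?_
      rw [Module.finrank_matrix, Module.finrank_self, Fintype.card_fin, mul_one]
    · refine Finset.sum_congr rfl fun i _ => ?_
      rw [Module.finrank_matrix, Module.finrank_self, Fintype.card_fin, mul_one]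
  have e2 : Module.finrank ℂ (HomS a (fun i => Fin (p i)) (fun k => Fin (q k))) =
      ∑ i, ∑ k, a i k * (q k * p i) := by
    rw [Module.finrank_pi_fintype]
    refine Finset.sum_congr rfl fun i _ => ?_
    rw [Module.finrank_pi_fintype]
    refine Finset.sum_congr rfl fun k _ => ?_
    rw [Module.finrank_pi_fintype]
    simp only [Module.finrank_matrix, Module.finrank_self, Fintype.card_fin, mul_one,
      Finset.sum_const, Finset.card_univ, smul_eq_mul]
  have e3 : ∑ i, ∑ k, a i k * (q k * p i) = 2 * ∑ i, p i * p i := by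
    rw [Finset.mul_sum]
    refine Finset.sum_congr rfl fun i _ => ?_
    rw [← mul_assoc, ← hp i, Finset.sum_mul]
    refine Finset.sum_congr rfl fun k _ => ?_
    ring
  have e4 : ∑ i, ∑ k, a i k * (q k * p i) = 2 * ∑ k, q k * q k := by
    rw [Finset.sum_comm, Finset.mul_sum]
    refine Finset.sum_congr rfl fun k _ => ?_
    rw [← mul_assoc, ← hq k, Finset.sum_mul]
    refine Finset.sum_congr rfl fun i _ => ?_
    ring
  rw [e1, e2]
  omega

end surj

section blocks

variable {m n o N : Type*} [Fintype m] [Fintype n] [Fintype N] [DecidableEq N]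

/-- The block of a matrix. -/
def blk (M : Matrix (m × N) (n × N) ℂ) (t t' : N) : Matrix m n ℂ := fun y x => M (y, t) (x, t')

omit [Fintype m] in
lemma blk_blockDiagonal_mul {l : Type*} (W : N → Matrix m n ℂ) (M : Matrix (n × N) (l × N) ℂ)
    (t t' : N) : blk (blockDiagonal W * M) t t' = W t * blk M t t' := by
  ext y x
  show (blockDiagonal W * M) (y, t) (x, t') = (W t * blk M t t') y x
  rw [Matrix.mul_apply, Matrix.mul_apply, Fintype.sum_prod_type]
  refine Finset.sum_congr rfl fun z _ => ?_
  simp only [blockDiagonal_apply, ite_mul, zero_mul, Finset.sum_ite_eq, Finset.mem_univ, if_true]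
  rfl

omit [Fintype n] in
lemma blk_mul_blockDiagonal {l : Type*} (W : N → Matrix m n ℂ) (M : Matrix (l × N) (m × N) ℂ)
    (t t' : N) : blk (M * blockDiagonal W) t t' = blk M t t' * W t' := by
  ext y x
  show (M * blockDiagonal W) (y, t) (x, t') = (blk M t t' * W t') y x
  rw [Matrix.mul_apply, Matrix.mul_apply, Fintype.sum_prod_type]
  refine Finset.sum_congr rfl fun z _ => ?_
  simp only [blockDiagonal_apply, mul_ite, mul_zero, Finset.sum_ite_eq', Finset.mem_univ, if_true]
  rfl

omit [Fintype m] [Fintype n] [Fintype N] [DecidableEq N] in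
lemma ext_blk {M M' : Matrix (m × N) (n × N) ℂ} (h : ∀ t t', blk M t t' = blk M' t t') :
    M = M' := by
  ext ⟨y, t⟩ ⟨x, t'⟩
  exact congrFun (congrFun (h t t') y) x

end blocks

attribute [local instance] Matrix.linftyOpNormedAddCommGroup Matrix.linftyOpNormedSpace
  Matrix.linftyOpNormedRing Matrix.linftyOpNormedAlgebra

theorem exists_endo_blocks {I K : Type} [Fintype I] [Fintype K] {a : I → K → ℕ} {p : I → ℕ}
    {q : K → ℕ} (hp : ∀ i, ∑ k, a i k * q k = 2 * p i) (hq : ∀ k, ∑ i, a i k * p i = 2 * q k)
    (hpos : ∃ i, 0 < p i) (W0 W1 : HomS a (fun i => Fin (p i)) (fun k => Fin (q k)))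
    (h01 : ∀ (α : EndS (fun i => Fin (p i))) (β : EndS (fun k => Fin (q k))),
      (∀ i k s, W1 i k s * α i = β k * W0 i k s) → α = 0 ∧ β = 0)
    (h10 : ∀ (α : EndS (fun i => Fin (p i))) (β : EndS (fun k => Fin (q k))),
      (∀ i k s, W0 i k s * α i = β k * W1 i k s) → α = 0 ∧ β = 0)
    {N : ℕ} (hN : 2 ≤ N)
    (ψ : HomS a (fun i => Fin (p i) × Fin N) (fun k => Fin (q k) × Fin N)) :
    ∃ (α : EndS (fun i => Fin (p i) × Fin N)) (β : EndS (fun k => Fin (q k) × Fin N)),
      (∀ i k s, ψ i k s * α i = β k * ψ i k s) ∧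
        ¬ ∃ c : ℂ, α = c • (1 : EndS (fun i => Fin (p i) × Fin N)) ∧
          β = c • (1 : EndS (fun k => Fin (q k) × Fin N)) := by
  classical
  let t0 : Fin N := ⟨0, by omega⟩
  let t1 : Fin N := ⟨1, by omega⟩
  have ht : t1 ≠ t0 := by simp [t0, t1]
  let W : Fin N → HomS a (fun i => Fin (p i)) (fun k => Fin (q k)) := fun t =>
    if t = t0 then W0 else W1
  let φ : HomS a (fun i => Fin (p i) × Fin N) (fun k => Fin (q k) × Fin N) := fun i k s =>
    blockDiagonal fun t => W t i k s
  let e : EndS (fun i => Fin (p i) × Fin N) := fun i => blockDiagonal fun t =>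
    if t = t0 then 1 else 0
  let e' : EndS (fun k => Fin (q k) × Fin N) := fun k => blockDiagonal fun t =>
    if t = t0 then 1 else 0
  have he : e * e = e := by
    funext i
    show (blockDiagonal fun t => if t = t0 then (1 : Matrix (Fin (p i)) (Fin (p i)) ℂ) else 0) *
      (blockDiagonal fun t => if t = t0 then 1 else 0) = blockDiagonal fun t => if t = t0 then 1 else 0
    rw [← blockDiagonal_mul]
    congr 1
    funext t
    split_ifs <;> simp
  obtain ⟨i0, hi0⟩ := hpos
  let x0 : Fin (p i0) := ⟨0, hi0⟩
  have he0 : e ≠ 0 := by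
    intro h
    have h1 : e i0 (x0, t0) (x0, t0) = 0 := by rw [h]; rfl
    have h2 : e i0 (x0, t0) (x0, t0) = 1 := by
      show blockDiagonal _ _ _ = _
      rw [blockDiagonal_apply_eq, if_pos rfl, Matrix.one_apply_eq]
    rw [h1] at h2
    exact zero_ne_one h2
  have he1 : e ≠ 1 := by
    intro h
    have h1 : e i0 (x0, t1) (x0, t1) = 1 := by
      rw [h]
      show (1 : Matrix (Fin (p i0) × Fin N) (Fin (p i0) × Fin N) ℂ) _ _ = 1
      rw [Matrix.one_apply_eq]
    have h2 : e i0 (x0, t1) (x0, t1) = 0 := by
      show blockDiagonal _ _ _ = _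
      rw [blockDiagonal_apply_eq, if_neg ht]
      rfl
    rw [h1] at h2
    exact one_ne_zero h2
  have hcomm : ∀ (b : EndS (fun k => Fin (q k) × Fin N))
      (x : (EndS (fun i => Fin (p i) × Fin N))ᵐᵒᵖ)
      (v : HomS a (fun i => Fin (p i) × Fin N) (fun k => Fin (q k) × Fin N)),
      lAct a _ _ b (rAct a _ _ x v) = rAct a _ _ x (lAct a _ _ b v) := by
    intro b x v
    funext i k s
    exact (Matrix.mul_assoc _ _ _).symm
  have hφ : φ ∈ diagL (lAct a (fun i => Fin (p i) × Fin N) (fun k => Fin (q k) × Fin N))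
      (rAct a _ _) e e' := by
    rw [mem_diagL]
    funext i k s
    rw [lAct_apply, rAct_apply]
    show (blockDiagonal _) * (blockDiagonal _) = (blockDiagonal _) * (blockDiagonal _)
    rw [← blockDiagonal_mul, ← blockDiagonal_mul]
    congr 1
    funext t
    split_ifs <;> simp
  have hs01 := dMap_surj hp hq W0 W1 h01
  have hs10 := dMap_surj hp hq W1 W0 h10
  have hsurj : ∀ v : HomS a (fun i => Fin (p i) × Fin N) (fun k => Fin (q k) × Fin N),
      ∃ (α : EndS (fun i => Fin (p i) × Fin N)) (β : EndS (fun k => Fin (q k) × Fin N))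
        (d : HomS a (fun i => Fin (p i) × Fin N) (fun k => Fin (q k) × Fin N)),
        d ∈ diagL (lAct a _ _) (rAct a _ _) e e' ∧
        v = rAct a _ _ (op α) φ - lAct a _ _ β φ - d := by
    intro v
    -- the blocks
    have hb : ∀ t t' : Fin N, ∃ z : EndS (fun i => Fin (p i)) × EndS (fun k => Fin (q k)),
        (t = t0 ∧ t' ≠ t0 ∨ t ≠ t0 ∧ t' = t0) → ∀ i k s,
          W t i k s * z.1 i - z.2 k * W t' i k s = blk (v i k s) t t' := by
      intro t t'
      by_cases h : (t = t0 ∧ t' ≠ t0 ∨ t ≠ t0 ∧ t' = t0)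
      · rcases h with ⟨h1, h2⟩ | ⟨h1, h2⟩
        · obtain ⟨z, hz⟩ := hs10 (fun i k s => blk (v i k s) t t')
          refine ⟨z, fun _ i k s => ?_⟩
          have := congrFun (congrFun (congrFun hz i) k) s
          simp only [W, if_pos h1, if_neg h2]
          exact this
        · obtain ⟨z, hz⟩ := hs01 (fun i k s => blk (v i k s) t t')
          refine ⟨z, fun _ i k s => ?_⟩
          have := congrFun (congrFun (congrFun hz i) k) s
          simp only [W, if_neg h1, if_pos h2]
          exact this
      · exact ⟨0, fun h' => absurd h' h⟩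
    choose z hz using hb
    let α : EndS (fun i => Fin (p i) × Fin N) := fun i x x' => (z x.2 x'.2).1 i x.1 x'.1
    let β : EndS (fun k => Fin (q k) × Fin N) := fun k y y' => (z y.2 y'.2).2 k y.1 y'.1
    refine ⟨α, β, rAct a _ _ (op α) φ - lAct a _ _ β φ - v, ?_, by abel⟩
    rw [mem_diagL]
    funext i k s
    rw [lAct_apply, rAct_apply]
    apply ext_blk
    intro t t'
    show blk (blockDiagonal _ * _) t t' = blk (_ * blockDiagonal _) t t'
    rw [blk_blockDiagonal_mul, blk_mul_blockDiagonal]
    have hblk : blk ((rAct a _ _ (op α) φ - lAct a _ _ β φ - v) i k s) t t' =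
        W t i k s * (z t t').1 i - (z t t').2 k * W t' i k s - blk (v i k s) t t' := by
      show blk (blockDiagonal (fun t => W t i k s) * α i) t t' -
        blk (β k * blockDiagonal (fun t => W t i k s)) t t' - blk (v i k s) t t' = _
      rw [blk_blockDiagonal_mul, blk_mul_blockDiagonal]
      rfl
    by_cases h : (t = t0 ∧ t' ≠ t0 ∨ t ≠ t0 ∧ t' = t0)
    · rw [hblk, hz t t' h i k s, sub_self, Matrix.mul_zero, Matrix.zero_mul]
    · by_cases h1 : t = t0
      · have h2 : t' = t0 := by
          by_contra h2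
          exact h (Or.inl ⟨h1, h2⟩)
        rw [if_pos h1, if_pos h2, Matrix.one_mul, Matrix.mul_one]
      · have h2 : t' ≠ t0 := fun h2 => h (Or.inr ⟨h1, h2⟩)
        rw [if_neg h1, if_neg h2, Matrix.zero_mul, Matrix.mul_zero]
  obtain ⟨α, β, h1, h2⟩ := exists_endo (lAct a (fun i => Fin (p i) × Fin N)
    (fun k => Fin (q k) × Fin N)) (rAct a _ _) hcomm φ e e' he he0 he1 hφ hsurj ψ
  refine ⟨α, β, fun i k s => ?_, h2⟩
  exact congrFun (congrFun (congrFun h1 i) k) s

end Pool.Agent.KS6_42.MS
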