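import Pool.Agent.KS6_42.MS.Rep

/-!
# Pairs of orthogonal representations of a graph

The colour classes of the graph `V` are given by a bijection `σ : I ⊕ K ≃ V`, the arrows go from
`I` to `K`.
-/

set_option autoImplicit false

open Matrix

set_option linter.unusedSectionVars false

namespace Pool.Agent.KS6_42.MS

section vert

variable {V : Type} (adj : V → V → ℕ) (J : V → ℕ)

/-- There is no nonzero homomorphism from `W` to `W'`, where `c` is the colouring with the sources
coloured `true`. -/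
def Hom0 (c : V → Bool) (W W' : ∀ x y : V, ℕ → Matrix (Fin (J y)) (Fin (J x)) ℂ) : Prop :=
  ∀ γ : ∀ v : V, Matrix (Fin (J v)) (Fin (J v)) ℂ,
    (∀ x y s, c x = true → c y = false → s < adj x y → W' x y s * γ x = γ y * W x y s) →
      ∀ v, γ v = 0

/-- For every colouring there are orthogonal representations. -/
def HasPairs : Prop :=
  ∀ c : V → Bool, (∀ x y, adj x y ≠ 0 → c x ≠ c y) →
    ∃ W0 W1 : ∀ x y : V, ℕ → Matrix (Fin (J y)) (Fin (J x)) ℂ,
      Hom0 adj J c W0 W1 ∧ Hom0 adj J c W1 W0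

variable {adj J}

/-- The opposite colouring: transpose. -/
theorem Hom0.compl {c : V → Bool} (hsymm : ∀ x y, adj x y = adj y x)
    {W W' : ∀ x y : V, ℕ → Matrix (Fin (J y)) (Fin (J x)) ℂ} (h : Hom0 adj J c W W') :
    Hom0 adj J (fun v => !(c v)) (fun x y s => (W' y x s)ᵀ) (fun x y s => (W y x s)ᵀ) := by
  intro γ hγ
  have h1 := h (fun v => (γ v)ᵀ) (fun x y s hx hy hs => by
    have h2 := hγ y x s (by simp [hy]) (by simp [hx]) (by rw [hsymm]; exact hs)
    have h3 := congrArg Matrix.transpose h2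
    rw [Matrix.transpose_mul, Matrix.transpose_mul, Matrix.transpose_transpose,
      Matrix.transpose_transpose] at h3
    exact h3.symm)
  intro v
  have h4 := h1 v
  rw [← Matrix.transpose_transpose (γ v), h4, Matrix.transpose_zero]

/-- It suffices to give a pair for one colouring, if the colouring is unique. -/
theorem HasPairs.of_unique (hsymm : ∀ x y, adj x y = adj y x) (c0 : V → Bool)
    (hc : ∀ c : V → Bool, (∀ x y, adj x y ≠ 0 → c x ≠ c y) → c = c0 ∨ c = fun v => !(c0 v))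
    (W0 W1 : ∀ x y : V, ℕ → Matrix (Fin (J y)) (Fin (J x)) ℂ)
    (h01 : Hom0 adj J c0 W0 W1) (h10 : Hom0 adj J c0 W1 W0) : HasPairs adj J := by
  intro c hcol
  rcases hc c hcol with h | h
  · rw [h]; exact ⟨W0, W1, h01, h10⟩
  · rw [h]; exact ⟨_, _, h10.compl hsymm, h01.compl hsymm⟩

variable {I K : Type} [Fintype I] [Fintype K] [Fintype V] (σ : I ⊕ K ≃ V)

/-- **The conclusion for graphs.** -/
theorem HasPairs.exists_endo (H : HasPairs adj J) (hsymm : ∀ x y, adj x y = adj y x)
    (hJ : ∀ x, ∑ y, adj x y * J y = 2 * J x) (hpos : ∃ v, 0 < J v)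
    (hI : ∀ i i', adj (σ (Sum.inl i)) (σ (Sum.inl i')) = 0)
    (hK : ∀ k k', adj (σ (Sum.inr k)) (σ (Sum.inr k')) = 0)
    {N : ℕ} (hN : 2 ≤ N) (X : I → Type) (Y : K → Type) [∀ i, Fintype (X i)]
    [∀ k, Fintype (Y k)] [∀ i, DecidableEq (X i)] [∀ k, DecidableEq (Y k)]
    (εX : ∀ i, X i ≃ Fin (J (σ (Sum.inl i))) × Fin N)
    (εY : ∀ k, Y k ≃ Fin (J (σ (Sum.inr k))) × Fin N)
    (ψ : HomS (fun i k => adj (σ (Sum.inl i)) (σ (Sum.inr k))) X Y) :
    ∃ (α : EndS X) (β : EndS Y),
      (∀ i k s, ψ i k s * α i = β k * ψ i k s) ∧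
        ¬ ∃ c : ℂ, α = c • (1 : EndS X) ∧ β = c • (1 : EndS Y) := by
  classical
  set c : V → Bool := fun v => (σ.symm v).isLeft with hc
  have hcI : ∀ i, c (σ (Sum.inl i)) = true := fun i => by simp [hc]
  have hcK : ∀ k, c (σ (Sum.inr k)) = false := fun i => by simp [hc]
  have hcol : ∀ x y, adj x y ≠ 0 → c x ≠ c y := by
    intro x y hxy
    obtain ⟨u, rfl⟩ := σ.surjective x
    obtain ⟨w, rfl⟩ := σ.surjective y
    rcases u with i | k <;> rcases w with i' | k'
    · exact absurd (hI i i') hxy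
    · rw [hcI, hcK]; decide
    · rw [hcI, hcK]; decide
    · exact absurd (hK k k') hxy
  obtain ⟨W0, W1, h01, h10⟩ := H c hcol
  have hp : ∀ i, ∑ k, adj (σ (Sum.inl i)) (σ (Sum.inr k)) * J (σ (Sum.inr k)) =
      2 * J (σ (Sum.inl i)) := by
    intro i
    rw [← hJ, ← Equiv.sum_comp σ, Fintype.sum_sum_type]
    simp [hI]
  have hq : ∀ k, ∑ i, adj (σ (Sum.inl i)) (σ (Sum.inr k)) * J (σ (Sum.inl i)) =
      2 * J (σ (Sum.inr k)) := by
    intro k
    rw [← hJ, ← Equiv.sum_comp σ, Fintype.sum_sum_type]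
    simp only [hK, zero_mul, Finset.sum_const_zero, add_zero]
    exact Finset.sum_congr rfl fun i _ => by rw [hsymm]
  have hpos' : ∃ i, 0 < J (σ (Sum.inl i)) := by
    obtain ⟨v, hv⟩ := hpos
    obtain ⟨u, rfl⟩ := σ.surjective v
    rcases u with i | k
    · exact ⟨i, hv⟩
    · by_contra hcon
      push Not at hcon
      have h1 := hq k
      have h2 : ∑ i, adj (σ (Sum.inl i)) (σ (Sum.inr k)) * J (σ (Sum.inl i)) = 0 :=
        Finset.sum_eq_zero fun i _ => by rw [Nat.le_zero.1 (hcon i), mul_zero]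
      omega
  -- the transfer of the vanishing
  have key : ∀ W W' : ∀ x y : V, ℕ → Matrix (Fin (J y)) (Fin (J x)) ℂ, Hom0 adj J c W W' →
      ∀ (α : EndS (fun i => Fin (J (σ (Sum.inl i))))) (β : EndS (fun k => Fin (J (σ (Sum.inr k))))),
      (∀ i k (s : Fin (adj (σ (Sum.inl i)) (σ (Sum.inr k)))),
        W' (σ (Sum.inl i)) (σ (Sum.inr k)) s * α i = β k * W (σ (Sum.inl i)) (σ (Sum.inr k)) s) →
      α = 0 ∧ β = 0 := by
    intro W W' h α β hαβ
    let γ0 : ∀ u : I ⊕ K, Matrix (Fin (J (σ u))) (Fin (J (σ u))) ℂ := fun u =>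
      match u with
      | Sum.inl i => α i
      | Sum.inr k => β k
    let γ : ∀ v : V, Matrix (Fin (J v)) (Fin (J v)) ℂ :=
      Equiv.piCongrLeft (fun v => Matrix (Fin (J v)) (Fin (J v)) ℂ) σ γ0
    have hγ : ∀ u, γ (σ u) = γ0 u := fun u =>
      Equiv.piCongrLeft_apply_apply (fun v => Matrix (Fin (J v)) (Fin (J v)) ℂ) σ γ0 u
    have h1 := h γ (by
      intro x y s hx hy hs
      obtain ⟨u, rfl⟩ := σ.surjective x
      obtain ⟨w, rfl⟩ := σ.surjective y
      rcases u with i | k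
      · rcases w with i' | k'
        · rw [hcI] at hy; exact absurd hy (by decide)
        · rw [hγ, hγ]
          exact hαβ i k' ⟨s, hs⟩
      · rw [hcK] at hx; exact absurd hx (by decide))
    constructor
    · funext i
      have := h1 (σ (Sum.inl i))
      rw [hγ] at this
      exact this
    · funext k
      have := h1 (σ (Sum.inr k))
      rw [hγ] at this
      exact this
  -- reindex
  let ψ' : HomS (fun i k => adj (σ (Sum.inl i)) (σ (Sum.inr k)))
      (fun i => Fin (J (σ (Sum.inl i))) × Fin N) (fun k => Fin (J (σ (Sum.inr k))) × Fin N) :=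
    fun i k s => (ψ i k s).reindex (εY k) (εX i)
  obtain ⟨α, β, h1, h2⟩ := exists_endo_blocks hp hq hpos'
    (fun i k s => W0 (σ (Sum.inl i)) (σ (Sum.inr k)) s)
    (fun i k s => W1 (σ (Sum.inl i)) (σ (Sum.inr k)) s)
    (key W0 W1 h01) (key W1 W0 h10) hN ψ'
  refine ⟨fun i => (α i).reindex (εX i).symm (εX i).symm,
    fun k => (β k).reindex (εY k).symm (εY k).symm, fun i k s => ?_, ?_⟩
  · have h3 := congrArg (fun M => M.submatrix (εY k) (εX i)) (h1 i k s)
    have e1 : ψ i k s = (ψ' i k s).submatrix (εY k) (εX i) := by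
      ext y x; simp [ψ']
    show ψ i k s * (α i).submatrix (εX i) (εX i) = (β k).submatrix (εY k) (εY k) * ψ i k s
    rw [e1, Matrix.submatrix_mul_equiv, Matrix.submatrix_mul_equiv]
    exact h3
  · rintro ⟨z, hz1, hz2⟩
    apply h2
    refine ⟨z, ?_, ?_⟩
    · funext i
      have h3 : (α i).submatrix (εX i) (εX i) = z • (1 : Matrix (X i) (X i) ℂ) := congrFun hz1 i
      show α i = z • (1 : Matrix _ _ ℂ)
      ext u w
      have h4 := congrFun (congrFun h3 ((εX i).symm u)) ((εX i).symm w)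
      simp only [Matrix.submatrix_apply, Equiv.apply_symm_apply, Matrix.smul_apply] at h4
      rw [h4, Matrix.smul_apply, Matrix.one_apply, Matrix.one_apply]
      simp
    · funext k
      have h3 : (β k).submatrix (εY k) (εY k) = z • (1 : Matrix (Y k) (Y k) ℂ) := congrFun hz2 k
      show β k = z • (1 : Matrix _ _ ℂ)
      ext u w
      have h4 := congrFun (congrFun h3 ((εY k).symm u)) ((εY k).symm w)
      simp only [Matrix.submatrix_apply, Equiv.apply_symm_apply, Matrix.smul_apply] at h4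
      rw [h4, Matrix.smul_apply, Matrix.one_apply, Matrix.one_apply]
      simp

end vert

end Pool.Agent.KS6_42.MS
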